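import Mathlib
set_option autoImplicit false

/-!
# Random walks along improving edges
-/

namespace Pool.Agent.H80.GR

open Finset

variable {V : Type} [Fintype V] [DecidableEq V]

/-- a random walk along improving edges; the states `σ : S` contain the history, `X σ` is the current
vertex, `q σ i` the probability of the direction `i`, which is at most `ρ / deg`. -/
structure Walk {V : Type} (f : V → ℝ) (out : V → Finset V) (ρ : ℝ) (S : Type) where
  /-- the current vertex -/
  X : S → V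
  /-- the next state -/
  nxt : S → V → S
  /-- the probabilities -/
  q : S → V → ℝ
  inc : ∀ v, ∀ w ∈ out v, f v < f w
  hX : ∀ σ, ∀ i ∈ out (X σ), X (nxt σ i) = i
  q0 : ∀ σ i, 0 ≤ q σ i
  q1 : ∀ σ, ∑ i ∈ out (X σ), q σ i ≤ 1
  qb : ∀ σ, ∀ i ∈ out (X σ), q σ i * (out (X σ)).card ≤ ρ

variable {f : V → ℝ} {out : V → Finset V} {ρ : ℝ} {S : Type}

/-- the transition operator -/
noncomputable def Walk.P (W : Walk f out ρ S) : (S → ℝ) →ₗ[ℝ] (S → ℝ) where
  toFun g := fun σ => ∑ i ∈ out (W.X σ), W.q σ i * g (W.nxt σ i)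
  map_add' g h := by
    funext σ
    simp [mul_add, sum_add_distrib]
  map_smul' c g := by
    funext σ
    simp only [Pi.smul_apply, smul_eq_mul, RingHom.id_apply, mul_sum]
    exact sum_congr rfl fun i _ => by ring

/-- the transition operator of the walk which is killed at vertices with less than `l` improving
directions -/
noncomputable def Walk.PR (W : Walk f out ρ S) (l : ℕ) : (S → ℝ) →ₗ[ℝ] (S → ℝ) where
  toFun g := fun σ => if l ≤ (out (W.X σ)).card then W.P g σ else 0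
  map_add' g h := by
    funext σ
    simp only [map_add, Pi.add_apply]
    split_ifs <;> simp
  map_smul' c g := by
    funext σ
    simp only [map_smul, Pi.smul_apply, smul_eq_mul, RingHom.id_apply]
    split_ifs <;> simp

theorem Walk.P_apply (W : Walk f out ρ S) (g : S → ℝ) (σ : S) :
    W.P g σ = ∑ i ∈ out (W.X σ), W.q σ i * g (W.nxt σ i) := rfl

theorem Walk.PR_apply (W : Walk f out ρ S) (l : ℕ) (g : S → ℝ) (σ : S) :
    W.PR l g σ = if l ≤ (out (W.X σ)).card then W.P g σ else 0 := rfl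

theorem Walk.P_mono (W : Walk f out ρ S) {g h : S → ℝ} (hgh : g ≤ h) : W.P g ≤ W.P h := by
  intro σ
  rw [W.P_apply, W.P_apply]
  exact sum_le_sum fun i _ => mul_le_mul_of_nonneg_left (hgh _) (W.q0 _ _)

theorem Walk.PR_mono (W : Walk f out ρ S) (l : ℕ) {g h : S → ℝ} (hgh : g ≤ h) :
    W.PR l g ≤ W.PR l h := by
  intro σ
  rw [W.PR_apply, W.PR_apply]
  split_ifs
  · exact W.P_mono hgh σ
  · exact le_rfl

theorem pow_mono_of {A : (S → ℝ) →ₗ[ℝ] (S → ℝ)} (hA : ∀ g h : S → ℝ, g ≤ h → A g ≤ A h)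
    (j : ℕ) {g h : S → ℝ} (hgh : g ≤ h) : (A ^ j) g ≤ (A ^ j) h := by
  induction j generalizing g h with
  | zero => simpa using hgh
  | succ j ih =>
    rw [pow_succ, Module.End.mul_apply, Module.End.mul_apply]
    exact ih (hA _ _ hgh)

theorem Walk.Pj_mono (W : Walk f out ρ S) (j : ℕ) {g h : S → ℝ} (hgh : g ≤ h) :
    (W.P ^ j) g ≤ (W.P ^ j) h := pow_mono_of (fun _ _ => W.P_mono) j hgh

theorem Walk.PRj_mono (W : Walk f out ρ S) (l j : ℕ) {g h : S → ℝ} (hgh : g ≤ h) :
    (W.PR l ^ j) g ≤ (W.PR l ^ j) h := pow_mono_of (fun _ _ => W.PR_mono l) j hgh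

theorem Walk.Pj_nonneg (W : Walk f out ρ S) (j : ℕ) {g : S → ℝ} (hg : 0 ≤ g) : 0 ≤ (W.P ^ j) g := by
  have := W.Pj_mono j hg
  rwa [map_zero] at this

theorem Walk.PRj_nonneg (W : Walk f out ρ S) (l j : ℕ) {g : S → ℝ} (hg : 0 ≤ g) :
    0 ≤ (W.PR l ^ j) g := by
  have := W.PRj_mono l j hg
  rwa [map_zero] at this

theorem Walk.P_one (W : Walk f out ρ S) : W.P 1 ≤ 1 := by
  intro σ
  rw [W.P_apply]
  simpa using W.q1 σ

theorem Walk.PR_le (W : Walk f out ρ S) (l : ℕ) {g : S → ℝ} (hg : 0 ≤ g) : W.PR l g ≤ W.P g := by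
  intro σ
  rw [W.PR_apply]
  split_ifs
  · exact le_rfl
  · have := W.Pj_nonneg 1 hg σ
    simpa using this

theorem Walk.Pj_one (W : Walk f out ρ S) (j : ℕ) : (W.P ^ j) 1 ≤ 1 := by
  induction j with
  | zero => simp
  | succ j ih =>
    rw [pow_succ, Module.End.mul_apply]
    exact (W.Pj_mono j W.P_one).trans ih

theorem Walk.PRj_le (W : Walk f out ρ S) (l j : ℕ) {g : S → ℝ} (hg : 0 ≤ g) :
    (W.PR l ^ j) g ≤ (W.P ^ j) g := by
  induction j generalizing g with
  | zero => simp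
  | succ j ih =>
    rw [pow_succ, Module.End.mul_apply, pow_succ, Module.End.mul_apply]
    have h0 : 0 ≤ W.PR l g := by
      have := W.PRj_nonneg l 1 hg
      simpa using this
    exact (ih h0).trans (W.Pj_mono j (W.PR_le l hg))

theorem Walk.PRj_one (W : Walk f out ρ S) (l j : ℕ) : (W.PR l ^ j) 1 ≤ 1 :=
  (W.PRj_le l j (g := 1) (fun _ => zero_le_one)).trans (W.Pj_one j)

theorem Walk.Pj_le_one (W : Walk f out ρ S) (j : ℕ) {g : S → ℝ} (hg : g ≤ 1) : (W.P ^ j) g ≤ 1 :=
  (W.Pj_mono j hg).trans (W.Pj_one j)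

/-- the indicator function of `X = v` -/
noncomputable def Walk.ind (W : Walk f out ρ S) (v : V) : S → ℝ :=
  fun σ => if W.X σ = v then 1 else 0

theorem Walk.ind_nonneg (W : Walk f out ρ S) (v : V) : 0 ≤ W.ind v := by
  intro σ
  show (0 : ℝ) ≤ if W.X σ = v then 1 else 0
  split_ifs <;> norm_num

theorem Walk.sum_ind (W : Walk f out ρ S) : ∑ v, W.ind v = 1 := by
  funext σ
  rw [Finset.sum_apply]
  simp [Walk.ind]

/-- the function whose expectation is the flow along the edge `(v, i)` -/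
noncomputable def Walk.fl (W : Walk f out ρ S) (v : V) (i : V) : S → ℝ :=
  fun σ => if W.X σ = v then W.q σ i else 0

theorem Walk.fl_nonneg (W : Walk f out ρ S) (v : V) (i : V) : 0 ≤ W.fl v i := by
  intro σ
  show (0 : ℝ) ≤ if W.X σ = v then W.q σ i else 0
  split_ifs
  · exact W.q0 _ _
  · exact le_rfl

/-- the law of the killed walk after `j` steps -/
noncomputable def Walk.pi (W : Walk f out ρ S) (l j : ℕ) (σ : S) (v : V) : ℝ :=
  (W.PR l ^ j) (W.ind v) σ

/-- the flow of the killed walk at step `j` -/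
noncomputable def Walk.Fl (W : Walk f out ρ S) (l j : ℕ) (σ : S) (v : V) (i : V) : ℝ :=
  (W.PR l ^ j) (W.fl v i) σ

theorem Walk.pi_nonneg (W : Walk f out ρ S) (l j : ℕ) (σ : S) (v : V) :
    0 ≤ W.pi l j σ v := W.PRj_nonneg l j (W.ind_nonneg v) σ

theorem Walk.Fl_nonneg (W : Walk f out ρ S) (l j : ℕ) (σ : S) (v : V) (i : V) :
    0 ≤ W.Fl l j σ v i := W.PRj_nonneg l j (W.fl_nonneg v i) σ

theorem Walk.sum_pi (W : Walk f out ρ S) (l j : ℕ) (σ : S) : ∑ v, W.pi l j σ v ≤ 1 := by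
  have h : ∑ v, W.pi l j σ v = (W.PR l ^ j) 1 σ := by
    rw [← W.sum_ind, map_sum, Finset.sum_apply]
    rfl
  rw [h]
  exact W.PRj_one l j σ

theorem Walk.Fl_le (W : Walk f out ρ S) (l j : ℕ) (σ : S) (v : V) (i : V)
    (hi : i ∈ out v) (hl : l ≤ (out v).card) :
    W.Fl l j σ v i * l ≤ ρ * W.pi l j σ v := by
  have h : (l : ℝ) • W.fl v i ≤ ρ • W.ind v := by
    intro σ'
    simp only [Pi.smul_apply, smul_eq_mul, Walk.fl, Walk.ind]
    split_ifs with h
    · rw [mul_one, mul_comm]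
      have h1 := W.qb σ' i (by rw [h]; exact hi)
      rw [h] at h1
      refine le_trans ?_ h1
      apply mul_le_mul_of_nonneg_left _ (W.q0 _ _)
      exact_mod_cast hl
    · simp
  have h2 := W.PRj_mono l j h σ
  rw [map_smul, map_smul] at h2
  simp only [Pi.smul_apply, smul_eq_mul] at h2
  unfold Walk.Fl Walk.pi
  linarith

theorem Walk.sum_Fl (W : Walk f out ρ S) (l j : ℕ) (σ : S) (v : V) :
    ∑ i ∈ out v, W.Fl l j σ v i ≤ W.pi l j σ v := by
  have h : ∑ i ∈ out v, W.fl v i ≤ W.ind v := by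
    intro σ'
    rw [Finset.sum_apply]
    simp only [Walk.fl, Walk.ind]
    split_ifs with h
    · rw [← h]; exact W.q1 σ'
    · simp
  have h2 := W.PRj_mono l j h σ
  rw [map_sum, Finset.sum_apply] at h2
  exact h2

theorem Walk.pi_succ (W : Walk f out ρ S) (l j : ℕ) (σ : S) (v : V) :
    W.pi l (j + 1) σ v = ∑ u,
      if v ∈ out u ∧ l ≤ (out u).card then W.Fl l j σ u v else 0 := by
  classical
  have h : W.PR l (W.ind v) = ∑ u,
      (if v ∈ out u ∧ l ≤ (out u).card then (1 : ℝ) else 0) • W.fl u v := by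
    funext σ'
    rw [Finset.sum_apply, W.PR_apply, W.P_apply]
    simp only [Pi.smul_apply, smul_eq_mul, Walk.ind, Walk.fl]
    have e1 : ∀ i ∈ out (W.X σ'), W.q σ' i * (if W.X (W.nxt σ' i) = v then (1 : ℝ) else 0) =
        if i = v then W.q σ' v else 0 := by
      intro i hi
      rw [W.hX σ' i hi]
      by_cases hc : i = v
      · rw [if_pos hc, if_pos hc, mul_one, hc]
      · rw [if_neg hc, if_neg hc, mul_zero]
    rw [sum_congr rfl e1, sum_ite_eq']
    have e2 : ∀ u : V, (if v ∈ out u ∧ l ≤ (out u).card then (1 : ℝ) else 0) *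
        (if W.X σ' = u then W.q σ' v else 0) =
        if u = W.X σ' then (if v ∈ out (W.X σ') ∧ l ≤ (out (W.X σ')).card then W.q σ' v else 0)
          else 0 := by
      intro u
      by_cases hc : u = W.X σ'
      · rw [if_pos hc, if_pos hc.symm, hc]
        split_ifs <;> simp
      · have hc' : ¬ W.X σ' = u := fun e => hc e.symm
        simp only [hc, hc', if_false, mul_zero]
    rw [sum_congr rfl fun u _ => e2 u, sum_ite_eq', if_pos (mem_univ _)]
    by_cases h1 : v ∈ out (W.X σ') <;> by_cases h2 : l ≤ (out (W.X σ')).card <;> simp [h1, h2]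
  unfold Walk.pi
  rw [pow_succ, Module.End.mul_apply, h, map_sum, Finset.sum_apply]
  refine sum_congr rfl fun i _ => ?_
  rw [map_smul, Pi.smul_apply, smul_eq_mul]
  unfold Walk.Fl
  split_ifs <;> simp

end Pool.Agent.H80.GR
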