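import Pool.Agent.H80.GR.Skip
set_option autoImplicit false

/-!
# The number of visits to a class of vertices
-/

namespace Pool.Agent.H80.GR

open Finset Real

variable {V : Type} [Fintype V] [DecidableEq V] {f : V → ℝ} {out : V → Finset V} {ρ : ℝ} {S : Type}

theorem Walk.nu_supp (W : Walk f out ρ S) {l K : ℕ} {lam : ℝ} (σ : S) (v : V)
    (h : ¬ f (W.X σ) ≤ f v) : W.nu l K lam σ v = 0 := by
  have h1 : ∀ j, W.pi l j σ v = 0 := by
    intro j
    have h2 := W.PRj_le l j (W.ind_nonneg v) σ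
    have h3 := W.Pj_zero_of j (f (W.X σ)) (g := W.ind v) (fun σ' h' => by
      unfold Walk.ind
      rw [if_neg]
      intro e
      rw [e] at h'
      exact h h') σ le_rfl
    rw [h3] at h2
    exact le_antisymm h2 (W.pi_nonneg l j σ v)
  unfold Walk.nu
  simp [h1]

/-- the probability to be in `L` at a random time -/
noncomputable def Walk.hh (W : Walk f out ρ S) (l K : ℕ) (lam : ℝ) (L : Finset V) : S → ℝ :=
  fun σ => ∑ w ∈ L, W.nu l K lam σ w

theorem Walk.hh_eq (W : Walk f out ρ S) {l K : ℕ} {lam : ℝ} (L : Finset V)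
    (hL : ∀ v ∈ L, l ≤ (out v).card) :
    W.hh l K lam L = c0 K lam • ∑ j ∈ range K, lam ^ j • (W.PR l ^ j) (W.indL L) := by
  funext σ
  simp only [Walk.hh, Pi.smul_apply, smul_eq_mul, Finset.sum_apply]
  have h1 : ∀ w ∈ L, W.nu l K lam σ w = c0 K lam * ∑ j ∈ range K, lam ^ j * W.pi l j σ w := by
    intro w hw
    unfold Walk.nu
    rw [if_pos (hL w hw)]
  rw [sum_congr rfl h1, ← mul_sum, sum_comm]
  congr 1
  refine sum_congr rfl fun j _ => ?_
  rw [← mul_sum]
  congr 1
  unfold Walk.indL Walk.pi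
  rw [map_sum, Finset.sum_apply]

/-- the crossing functions -/
noncomputable def Walk.cross (W : Walk f out ρ S) (j : ℕ) (a : ℝ) : S → ℝ :=
  fun σ => if f (W.X σ) < a then (W.P ^ j) (fun σ' => if a ≤ f (W.X σ') then 1 else 0) σ else 0

theorem Walk.skip_le (W : Walk f out ρ S) {l K : ℕ} (hK : 0 < K) {lam : ℝ} (hlam : 0 < lam)
    (L : Finset V) (σ : S) :
    ∑ w ∈ L, W.nu l K lam σ w * skip f L (W.X σ) w ≤
      (∑ z ∈ L, c0 K lam • ∑ j ∈ range K, lam ^ j • W.cross j (f z)) σ := by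
  classical
  have hc := c0_pos hK hlam
  have h1 : ∑ w ∈ L, W.nu l K lam σ w * skip f L (W.X σ) w =
      ∑ z ∈ L, if f (W.X σ) < f z then
        ∑ w ∈ L.filter (fun w => f z ≤ f w), W.nu l K lam σ w else 0 := by
    have e1 : ∀ w ∈ L, W.nu l K lam σ w * skip f L (W.X σ) w =
        ∑ z ∈ L, if f (W.X σ) < f z then (if f z ≤ f w then W.nu l K lam σ w else 0) else 0 := by
      intro w _
      unfold skip
      rw [card_filter, Nat.cast_sum, mul_sum]
      refine sum_congr rfl fun z _ => ?_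
      by_cases h : f (W.X σ) < f z <;> by_cases h' : f z ≤ f w <;> simp [h, h']
    rw [sum_congr rfl e1, sum_comm]
    refine sum_congr rfl fun z _ => ?_
    by_cases h : f (W.X σ) < f z
    · simp only [h, if_true]
      rw [sum_filter]
    · simp [h]
  rw [h1, Finset.sum_apply]
  refine sum_le_sum fun z _ => ?_
  simp only [Pi.smul_apply, smul_eq_mul, Finset.sum_apply]
  by_cases h : f (W.X σ) < f z
  · rw [if_pos h]
    have h2 : ∑ w ∈ L.filter (fun w => f z ≤ f w), W.nu l K lam σ w ≤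
        ∑ w ∈ L.filter (fun w => f z ≤ f w), c0 K lam * ∑ j ∈ range K, lam ^ j * W.pi l j σ w := by
      refine sum_le_sum fun w _ => ?_
      unfold Walk.nu
      split_ifs
      · exact le_rfl
      · exact mul_nonneg hc.le (sum_nonneg fun j _ => mul_nonneg (pow_pos hlam j).le
          (W.pi_nonneg _ _ _ _))
    refine h2.trans ?_
    rw [← mul_sum, sum_comm]
    apply mul_le_mul_of_nonneg_left _ hc.le
    refine sum_le_sum fun j _ => ?_
    rw [← mul_sum]
    apply mul_le_mul_of_nonneg_left _ (pow_pos hlam j).le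
    unfold Walk.cross
    rw [if_pos h]
    have h3 : ∑ w ∈ L.filter (fun w => f z ≤ f w), W.pi l j σ w =
        (W.PR l ^ j) (∑ w ∈ L.filter (fun w => f z ≤ f w), W.ind w) σ := by
      rw [map_sum, Finset.sum_apply]
      rfl
    rw [h3]
    have h0 : 0 ≤ ∑ w ∈ L.filter (fun w => f z ≤ f w), W.ind w :=
      sum_nonneg fun w _ => W.ind_nonneg w
    refine (W.PRj_le l j h0 σ).trans (W.Pj_mono j ?_ σ)
    intro σ'
    show (∑ w ∈ L.filter (fun w => f z ≤ f w), W.ind w) σ' ≤ if f z ≤ f (W.X σ') then (1 : ℝ) else 0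
    have h4 := W.indL_apply (L.filter (fun w => f z ≤ f w)) σ'
    unfold Walk.indL at h4
    rw [h4]
    by_cases h5 : f z ≤ f (W.X σ')
    · rw [if_pos h5]; split_ifs <;> norm_num
    · rw [if_neg h5, if_neg]
      intro h6
      rw [mem_filter] at h6
      exact h5 h6.2
  · rw [if_neg h]
    have : ∀ j, W.cross j (f z) σ = 0 := by
      intro j
      unfold Walk.cross
      rw [if_neg h]
    simp [this]

/-- the visits, and the good visits -/
theorem Walk.visits_le (W : Walk f out ρ S) {l K : ℕ} (hK : 0 < K) {lam : ℝ} (hlam : 0 < lam)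
    (L : Finset V) (hL : ∀ v ∈ L, l ≤ (out v).card) (N : ℕ) (σ0 : S) :
    W.occ N σ0 (W.indL L) ≤ W.occ N σ0 (W.hh l K lam L) +
      (K * W.occ N σ0 (W.indL (low out l)) + K * K + K) := by
  set R := K * W.occ N σ0 (W.indL (low out l)) + K * K + K with hR
  have hVl : 0 ≤ W.occ N σ0 (W.indL (low out l)) := W.occ_nonneg N σ0 (W.indL_nonneg _)
  have h1 : ∀ j, j < K → W.occ N σ0 (W.indL L) - R ≤ W.occ N σ0 ((W.PR l ^ j) (W.indL L)) := by
    intro j hj
    have h2 := W.occ_le_shift N j σ0 (W.indL_nonneg L) (W.indL_le_one L)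
    have h3 := W.occ_mono N σ0 (W.Pj_le l j (W.indL_le_one L))
    rw [W.occ_add, W.occ_sum] at h3
    have h4 : ∑ i ∈ range j, W.occ N σ0 ((W.P ^ i) (W.indL (low out l))) ≤
        ∑ i ∈ range j, (W.occ N σ0 (W.indL (low out l)) + K) := by
      refine sum_le_sum fun i hi => ?_
      have h5 := W.occ_shift_le N i σ0 (W.indL_nonneg (low out l)) (W.indL_le_one _)
      have h6 : (i : ℝ) ≤ K := by
        have : i ≤ K := by rw [mem_range] at hi; omega
        exact_mod_cast this
      linarith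
    rw [sum_const, card_range, nsmul_eq_mul] at h4
    have h7 : (j : ℝ) ≤ K := by exact_mod_cast hj.le
    have h8 : (j : ℝ) * (W.occ N σ0 (W.indL (low out l)) + K) ≤
        K * (W.occ N σ0 (W.indL (low out l)) + K) :=
      mul_le_mul_of_nonneg_right h7 (by positivity)
    rw [hR]
    linarith
  have h2 : W.occ N σ0 (W.hh l K lam L) =
      c0 K lam * ∑ j ∈ range K, lam ^ j * W.occ N σ0 ((W.PR l ^ j) (W.indL L)) := by
    rw [W.hh_eq L hL, W.occ_smul, W.occ_sum]
    congr 1
    refine sum_congr rfl fun j _ => ?_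
    rw [W.occ_smul]
  have h3 := c0_avg_le hK hlam (fun j => - W.occ N σ0 ((W.PR l ^ j) (W.indL L)))
    (A := - (W.occ N σ0 (W.indL L) - R)) (fun j hj => neg_le_neg (h1 j hj))
  have h4 : c0 K lam * ∑ j ∈ range K, lam ^ j * (- W.occ N σ0 ((W.PR l ^ j) (W.indL L))) =
      - (c0 K lam * ∑ j ∈ range K, lam ^ j * W.occ N σ0 ((W.PR l ^ j) (W.indL L))) := by
    simp only [mul_neg, sum_neg_distrib]
  rw [h4, ← h2] at h3
  linarith

/-- **The number of visits to a class.** -/
theorem Walk.class_step (hf : Function.Injective f) (W : Walk f out ρ S) {l K : ℕ} (hK : 0 < K)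
    {lam s Q δ : ℝ} (hlam : 0 < lam) (hs : 0 < s) (hQ : 0 < Q) (hδ : 0 < δ)
    (hRen : ∀ σ, ∑ v, W.nu l K lam σ v ^ (1 + s) ≤ Q) (L : Finset V)
    (hL : ∀ v ∈ L, l ≤ (out v).card) (N : ℕ) (σ0 : S) :
    W.occ N σ0 (W.indL L) ≤ K * W.occ N σ0 (W.indL (low out l)) + K * K + K + δ * W.occ N σ0 1 +
      4 * K / δ * (2 * Q / δ) ^ (1 / s) * L.card := by
  set t := (2 * Q / δ) ^ (1 / s) with ht
  have ht0 : 0 < t := by positivity
  have hts : t ^ s = 2 * Q / δ := by
    rw [ht, ← Real.rpow_mul (by positivity), one_div_mul_cancel hs.ne', Real.rpow_one]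
  have hKr : (1 : ℝ) ≤ K := by exact_mod_cast hK
  have hVl : 0 ≤ W.occ N σ0 (W.indL (low out l)) := W.occ_nonneg N σ0 (W.indL_nonneg _)
  have hV1 : 0 ≤ W.occ N σ0 1 := W.occ_nonneg N σ0 (fun _ => zero_le_one)
  rcases lt_or_ge δ (2 * t) with hc | hc
  · have h1 := W.occ_indL N σ0 L
    have h2 : (1 : ℝ) ≤ 4 * K / δ * t := by
      rw [div_mul_eq_mul_div, le_div_iff₀ hδ]
      nlinarith
    have h3 : (L.card : ℝ) ≤ 4 * K / δ * t * L.card := by
      have : (0 : ℝ) ≤ L.card := Nat.cast_nonneg _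
      nlinarith
    have h4 : 0 ≤ δ * W.occ N σ0 1 := by positivity
    have h5 : 0 ≤ (K : ℝ) * W.occ N σ0 (W.indL (low out l)) := by positivity
    nlinarith
  · set N1 := ⌊δ / (2 * t)⌋₊ with hN1
    have hx1 : 1 ≤ δ / (2 * t) := by rw [le_div_iff₀ (by positivity)]; linarith
    have h1 : (N1 : ℝ) ≤ δ / (2 * t) := Nat.floor_le (by positivity)
    have h2 : δ / (2 * t) < N1 + 1 := Nat.lt_floor_add_one _
    have h3 : 1 ≤ N1 := by
      rw [hN1, Nat.one_le_floor_iff]; exact hx1
    have h3r : (1 : ℝ) ≤ N1 := by exact_mod_cast h3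
    have h4 : δ / (4 * t) ≤ N1 := by
      have : δ / (4 * t) = (δ / (2 * t)) / 2 := by field_simp; ring
      rw [this]; linarith
    have h5 : N1 * t + Q / t ^ s ≤ δ := by
      have e1 : (N1 : ℝ) * t ≤ δ / 2 := by
        have := mul_le_mul_of_nonneg_right h1 ht0.le
        refine this.trans (le_of_eq ?_)
        field_simp
      have e2 : Q / t ^ s = δ / 2 := by
        rw [hts]; field_simp
      rw [e2]; linarith
    -- pointwise inequality
    have hpt : (N1 : ℝ) • (W.hh l K lam L - δ • (1 : S → ℝ)) ≤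
        ∑ z ∈ L, c0 K lam • ∑ j ∈ range K, lam ^ j • W.cross j (f z) := by
      intro σ
      refine le_trans ?_ (W.skip_le (l := l) hK hlam L σ)
      have h6 := skip_ge hf L (W.X σ) (W.nu l K lam σ) (fun v => W.nu_nonneg hK hlam σ v)
        (fun v hv => W.nu_supp σ v hv) hs ht0 N1 (hRen σ) h5
      simpa [Walk.hh] using h6
    have h7 := W.occ_mono N σ0 hpt
    rw [W.occ_smul, W.occ_sum] at h7
    have h8 : W.occ N σ0 (W.hh l K lam L - δ • (1 : S → ℝ)) =
        W.occ N σ0 (W.hh l K lam L) - δ * W.occ N σ0 1 := by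
      have e : W.hh l K lam L - δ • (1 : S → ℝ) = W.hh l K lam L + (-δ) • (1 : S → ℝ) := by
        rw [neg_smul, sub_eq_add_neg]
      rw [e, W.occ_add, W.occ_smul]; ring
    have h9 : ∑ z ∈ L, W.occ N σ0 (c0 K lam • ∑ j ∈ range K, lam ^ j • W.cross j (f z)) ≤
        L.card * K := by
      have e1 : ∀ z ∈ L, W.occ N σ0 (c0 K lam • ∑ j ∈ range K, lam ^ j • W.cross j (f z)) ≤ K := by
        intro z _
        rw [W.occ_smul, W.occ_sum]
        have e2 : ∑ j ∈ range K, W.occ N σ0 (lam ^ j • W.cross j (f z)) =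
            ∑ j ∈ range K, lam ^ j * W.occ N σ0 (W.cross j (f z)) :=
          sum_congr rfl fun j _ => W.occ_smul N σ0 _ _
        rw [e2]
        apply c0_avg_le hK hlam
        intro j hj
        have e3 := W.crossing N j σ0 (f z)
        have e4 : (j : ℝ) ≤ K := by exact_mod_cast hj.le
        exact e3.trans e4
      have e5 := sum_le_sum e1
      rwa [sum_const, nsmul_eq_mul] at e5
    rw [h8] at h7
    have h10 : W.occ N σ0 (W.hh l K lam L) - δ * W.occ N σ0 1 ≤ 4 * K / δ * t * L.card := by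
      rcases le_total (W.occ N σ0 (W.hh l K lam L) - δ * W.occ N σ0 1) 0 with h11 | h11
      · refine h11.trans ?_
        positivity
      · have h12 : δ / (4 * t) * (W.occ N σ0 (W.hh l K lam L) - δ * W.occ N σ0 1) ≤ L.card * K :=
          (mul_le_mul_of_nonneg_right h4 h11).trans (h7.trans h9)
        have h13 : 4 * K / δ * t * L.card = (L.card * K) / (δ / (4 * t)) := by
          field_simp
        rw [h13, le_div_iff₀ (by positivity)]
        linarith
    have h14 := W.visits_le hK hlam L hL N σ0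
    linarith

end Pool.Agent.H80.GR
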