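import Pool.Agent.H80.RE.Scal
set_option autoImplicit false

/-!
# Almost invariant distributions are spread out
-/

namespace Pool.Agent.H80.GR

open Finset Real Pool.Agent.H80.RE

variable {V : Type} [Fintype V] [DecidableEq V] {out : V → Finset V}

/-- Gibbs' inequality -/
theorem gibbs (ν : V → ℝ) (h0 : ∀ v, 0 ≤ ν v) (h1 : ∑ v, ν v ≤ 1) {s : ℝ}
    (hs : 0 < s) (hQ : 0 < ∑ v, ν v ^ (1 + s)) :
    (∑ v, ν v ^ (1 + s)) * log (∑ v, ν v ^ (1 + s)) ≤ s * ∑ v, ν v ^ (1 + s) * log (ν v) := by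
  set Q := ∑ v, ν v ^ (1 + s) with hQd
  have h : ∀ v, ν v ^ (1 + s) - Q * ν v ≤ s * (ν v ^ (1 + s) * log (ν v)) - ν v ^ (1 + s) * log Q := by
    intro v
    rcases (h0 v).eq_or_lt with h | h
    · rw [← h, Real.zero_rpow (by positivity)]; simp
    · have h2 : (0 : ℝ) < ν v ^ s / Q := by positivity
      have h3 := Real.one_sub_inv_le_log_of_pos h2
      rw [Real.log_div (by positivity) hQ.ne', Real.log_rpow h, inv_div] at h3
      have h4 : ν v ^ (1 + s) = ν v * ν v ^ s := by rw [Real.rpow_add h, Real.rpow_one]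
      have h5 := mul_le_mul_of_nonneg_left h3 (by positivity : 0 ≤ ν v ^ (1 + s))
      have h6 : ν v ^ (1 + s) * (1 - Q / ν v ^ s) = ν v ^ (1 + s) - Q * ν v := by
        rw [h4]
        have : ν v ^ s ≠ 0 := by positivity
        field_simp
      rw [h6] at h5
      linarith
  have hs' := sum_le_sum fun v (_ : v ∈ univ) => h v
  rw [sum_sub_distrib, sum_sub_distrib, ← mul_sum, ← mul_sum, ← sum_mul, ← hQd] at hs'
  nlinarith

/-- **Almost invariant distributions are spread out.** -/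
theorem spread {m : ℕ} {κ : ℝ} (hκ : 0 < κ)
    (hent : ∀ g : V → ℝ, (∀ v, 0 ≤ g v) → κ * ∑ v, ∑ w ∈ out v, e2 (g v) (g w) ≤
      ∑ v, negMulLog (g v) - negMulLog (∑ v, g v))
    (hdeg : ∀ w, (univ.filter fun v => w ∈ out v).card ≤ m) (ν : V → ℝ)
    (F : V → V → ℝ) (u : V) {l ρ lam c0 s τ ε : ℝ}
    (hs : 0 < s) (hs9 : s ≤ 1 / 9) (hτ : 3 ≤ τ) (hsτ : s * τ ≤ 1)
    (hl : 0 < l) (hρ : 0 < ρ) (hlam : 0 < lam) (hc0 : 0 ≤ c0)
    (hν0 : ∀ v, 0 ≤ ν v) (hν1 : ∑ v, ν v ≤ 1) (hF0 : ∀ v i, 0 ≤ F v i)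
    (hFl : ∀ v, ∀ i ∈ out v, F v i * l ≤ ρ * ν v)
    (hF1 : ∀ v, ∑ i ∈ out v, F v i ≤ ν v)
    (hsub : ∀ v, ν v ≤ lam * ∑ u, (if v ∈ out u then F u v else 0) + if v = u then c0 else 0)
    (hQ : c0 ≤ ε * ∑ v, ν v ^ (1 + s)) :
    ∑ v, ν v ^ (1 + s) ≤ exp (- (κ * s) * ((l / ρ) * (2 * log 2 - (1 + s) * log 2 * s * τ ^ 2 -
      (1 + s) * log 2 / s * (1 - (1 - ε) / lam)) - (1 + s) * log 2 / s * exp (-τ) * m)) := by
  classical
  set c := (1 + s) * log 2 / s with hc
  set B := 2 * log 2 - (1 + s) * log 2 * s * τ ^ 2 - c with hB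
  set Q := ∑ v, ν v ^ (1 + s) with hQd
  have hl2 : 0 < log 2 := Real.log_pos (by norm_num)
  have hcpos : 0 < c := by positivity
  have hB0 : B ≤ 0 := by
    have h1 : 0 ≤ (1 + s) * log 2 * s * τ ^ 2 := by positivity
    have h2 : 2 * log 2 ≤ c := by
      rw [hc, le_div_iff₀ hs]; nlinarith
    linarith
  have hg0 : ∀ v, 0 ≤ ν v ^ (1 + s) := fun v => Real.rpow_nonneg (hν0 v) _
  have hQ0 : 0 ≤ Q := sum_nonneg fun v _ => hg0 v
  rcases hQ0.eq_or_lt with h | hQpos
  · rw [← h]; exact (exp_pos _).le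
  -- the lower bound for an edge
  have hedge : ∀ v, ∀ i ∈ out v,
      l * (B * (F v i * ν v ^ s) + c * (F v i * ν i ^ s)) -
        c * (ρ * exp (-τ) * ν i ^ (1 + s))
      ≤ ρ * e2 (ν v ^ (1 + s)) (ν i ^ (1 + s)) := by
    intro v i hi
    have he := e2_nonneg (hg0 v) (hg0 i)
    have hb := hν0 i
    by_cases hgood : ν i ≤ exp τ * ν v
    · have hlast : 0 ≤ c * (ρ * exp (-τ) * ν i ^ (1 + s)) := by
        have := hg0 i
        positivity
      rcases (hν0 v).eq_or_lt with h0 | h0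
      · have h1 : F v i = 0 := by
          have h2 := hFl v i hi
          rw [← h0, mul_zero] at h2
          have h3 := hF0 v i
          by_contra h4
          have h5 : 0 < F v i := lt_of_le_of_ne h3 (Ne.symm h4)
          nlinarith
        rw [h1]
        have : 0 ≤ ρ * e2 (ν v ^ (1 + s)) (ν i ^ (1 + s)) := by positivity
        linarith
      · have h1 := edge_ineq hs hs9 hτ hsτ h0 hb hgood
        rw [← hc, ← hB] at h1
        have h2 : ν v ^ (1 + s) = ν v * ν v ^ s := by rw [Real.rpow_add h0, Real.rpow_one]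
        have h3 : B * ν v ^ (1 + s) + c * (ν v * ν i ^ s) =
            ν v * (B * ν v ^ s + c * ν i ^ s) := by rw [h2]; ring
        rw [h3] at h1
        have h4 : l * (B * (F v i * ν v ^ s) + c * (F v i * ν i ^ s)) =
            (F v i * l) * (B * ν v ^ s + c * ν i ^ s) := by ring
        rw [h4]
        rcases le_total 0 (B * ν v ^ s + c * ν i ^ s) with h5 | h5
        · have h6 := mul_le_mul_of_nonneg_right (hFl v i hi) h5
          have h7 := mul_le_mul_of_nonneg_left h1 hρ.le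
          have h8 : ρ * ν v * (B * ν v ^ s + c * ν i ^ s) =
            ρ * (ν v * (B * ν v ^ s + c * ν i ^ s)) := by ring
          linarith
        · have h6 : (F v i * l) * (B * ν v ^ s + c * ν i ^ s) ≤ 0 :=
            mul_nonpos_of_nonneg_of_nonpos (mul_nonneg (hF0 v i) hl.le) h5
          have h7 : 0 ≤ ρ * e2 (ν v ^ (1 + s)) (ν i ^ (1 + s)) := by positivity
          linarith
    · rw [not_le] at hgood
      have hbpos : 0 < ν i := lt_of_le_of_lt (mul_nonneg (exp_pos _).le (hν0 v)) hgood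
      have h1 : ν v ≤ exp (-τ) * ν i := by
        rw [Real.exp_neg, ← div_eq_inv_mul, le_div_iff₀ (exp_pos _)]
        linarith
      have h2 : F v i * l ≤ ρ * exp (-τ) * ν i := by
        have := mul_le_mul_of_nonneg_left h1 hρ.le
        have h3 := hFl v i hi
        linarith
      have h3 : ν i ^ (1 + s) = ν i * ν i ^ s := by
        rw [Real.rpow_add hbpos, Real.rpow_one]
      have h4 : (F v i * l) * ν i ^ s ≤ (ρ * exp (-τ) * ν i) * ν i ^ s :=
        mul_le_mul_of_nonneg_right h2 (Real.rpow_nonneg hb _)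
      have h5 : l * (B * (F v i * ν v ^ s)) ≤ 0 := by
        apply mul_nonpos_of_nonneg_of_nonpos hl.le
        exact mul_nonpos_of_nonpos_of_nonneg hB0 (mul_nonneg (hF0 v i) (Real.rpow_nonneg (hν0 v) _))
      have h6 := mul_le_mul_of_nonneg_left h4 hcpos.le
      have h7 : 0 ≤ ρ * e2 (ν v ^ (1 + s)) (ν i ^ (1 + s)) := by positivity
      have h8 : c * (ρ * exp (-τ) * ν i ^ (1 + s)) =
          c * (ρ * exp (-τ) * ν i * ν i ^ s) := by rw [h3]; ring
      have h9 : l * (B * (F v i * ν v ^ s) + c * (F v i * ν i ^ s)) =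
          l * (B * (F v i * ν v ^ s)) + c * (F v i * l * ν i ^ s) := by ring
      rw [h8, h9]
      linarith
  -- sums
  have hS1 : ∑ v, ∑ i ∈ out v, F v i * ν v ^ s ≤ Q := by
    refine sum_le_sum fun v _ => ?_
    rw [← sum_mul]
    have h1 := mul_le_mul_of_nonneg_right (hF1 v) (Real.rpow_nonneg (hν0 v) s)
    refine h1.trans (le_of_eq ?_)
    rcases (hν0 v).eq_or_lt with h0 | h0
    · rw [← h0, Real.zero_rpow (by positivity : (1 + s) ≠ 0)]; simp
    · rw [Real.rpow_add h0, Real.rpow_one]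
  have hswap : ∀ H : V → V → ℝ, ∑ v, ∑ i ∈ out v, H v i =
      ∑ v, ∑ u, (if v ∈ out u then H u v else 0) := by
    intro H
    rw [sum_comm]
    refine sum_congr rfl fun v _ => ?_
    rw [← sum_filter]
    refine sum_congr ?_ fun _ _ => rfl
    ext i; simp
  have hS2 : (Q - c0) / lam ≤ ∑ v, ∑ i ∈ out v, F v i * ν i ^ s := by
    have h1 : ∑ v, ∑ i ∈ out v, F v i * ν i ^ s =
        ∑ v, (∑ u, (if v ∈ out u then F u v else 0)) * ν v ^ s := by
      rw [hswap (fun v i => F v i * ν i ^ s)]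
      refine sum_congr rfl fun v _ => ?_
      rw [sum_mul]
      refine sum_congr rfl fun i _ => ?_
      split_ifs <;> simp
    rw [h1, div_le_iff₀ hlam]
    have h2 : ∀ v, ν v ^ (1 + s) - (if v = u then c0 else 0) ≤
        ((∑ u, (if v ∈ out u then F u v else 0)) * ν v ^ s) * lam := by
      intro v
      have h3 := mul_le_mul_of_nonneg_right (hsub v) (Real.rpow_nonneg (hν0 v) s)
      have h4 : ν v ^ (1 + s) = ν v * ν v ^ s := by
        rcases (hν0 v).eq_or_lt with h0 | h0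
        · rw [← h0, Real.zero_rpow (by positivity)]; simp
        · rw [Real.rpow_add h0, Real.rpow_one]
      have h5 : (if v = u then c0 else 0) * ν v ^ s ≤ if v = u then c0 else 0 := by
        have h6 : ν v ^ s ≤ 1 := by
          apply Real.rpow_le_one (hν0 v) _ hs.le
          exact (single_le_sum (fun w _ => hν0 w) (mem_univ v)).trans hν1
        have h7 : (0 : ℝ) ≤ if v = u then c0 else 0 := by split_ifs <;> simp [hc0]
        nlinarith [Real.rpow_nonneg (hν0 v) s]
      rw [h4]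
      nlinarith
    have h3 := sum_le_sum fun v (_ : v ∈ univ) => h2 v
    rw [sum_sub_distrib, ← sum_mul] at h3
    simp only [sum_ite_eq', mem_univ, if_true] at h3
    exact h3
  have hS3 : ∑ v, ∑ i ∈ out v, ν i ^ (1 + s) ≤ m * Q := by
    rw [hswap (fun v i => ν i ^ (1 + s)), hQd, mul_sum]
    refine sum_le_sum fun v _ => ?_
    rw [← sum_filter, sum_const, nsmul_eq_mul]
    apply mul_le_mul_of_nonneg_right _ (hg0 v)
    exact_mod_cast hdeg v
  -- the total
  have htot := sum_le_sum fun v (_ : v ∈ univ) => sum_le_sum fun i (hi : i ∈ out v) =>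
    hedge v i hi
  simp only [sum_sub_distrib, ← mul_sum, sum_add_distrib] at htot
  have hE := hent (fun v => ν v ^ (1 + s)) hg0
  simp only [← hQd] at hE
  have hnml : ∑ v, negMulLog (ν v ^ (1 + s)) = - (1 + s) * ∑ v, ν v ^ (1 + s) * log (ν v) := by
    rw [mul_sum]
    refine sum_congr rfl fun v _ => ?_
    rcases (hν0 v).eq_or_lt with h0 | h0
    · rw [← h0, Real.zero_rpow (by positivity)]; simp
    · unfold negMulLog
      rw [Real.log_rpow h0]; ring
  have hG := gibbs ν hν0 hν1 hs hQpos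
  rw [← hQd] at hG
  rw [hnml] at hE
  set Lg := ∑ v, ν v ^ (1 + s) * log (ν v) with hLg
  set E := ∑ v, ∑ i ∈ out v, e2 (ν v ^ (1 + s)) (ν i ^ (1 + s)) with hEd
  set S1 := ∑ v, ∑ i ∈ out v, F v i * ν v ^ s with hS1d
  set S2 := ∑ v, ∑ i ∈ out v, F v i * ν i ^ s with hS2d
  set S3 := ∑ v, ∑ i ∈ out v, ν i ^ (1 + s) with hS3d
  have hS2' : (1 - ε) / lam * Q ≤ S2 := by
    refine le_trans ?_ hS2
    rw [div_mul_eq_mul_div, div_le_div_iff_of_pos_right hlam]
    linarith
  -- lower bound for ρ E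
  have hlow : Q * (l * B + c * l * ((1 - ε) / lam) - c * ρ * exp (-τ) * m) ≤ ρ * E := by
    have h1 : B * Q ≤ B * S1 := mul_le_mul_of_nonpos_left hS1 hB0
    have h2 : c * ((1 - ε) / lam * Q) ≤ c * S2 := mul_le_mul_of_nonneg_left hS2' hcpos.le
    have h3 : c * (ρ * exp (-τ) * S3) ≤ c * (ρ * exp (-τ) * (m * Q)) := by
      apply mul_le_mul_of_nonneg_left _ hcpos.le
      apply mul_le_mul_of_nonneg_left hS3 (by positivity)
    have h4 : l * (B * Q + c * ((1 - ε) / lam * Q)) ≤ l * (B * S1 + c * S2) :=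
      mul_le_mul_of_nonneg_left (by linarith) hl.le
    nlinarith
  have hup : κ * E ≤ - (1 / s) * (Q * log Q) := by
    unfold negMulLog at hE
    have h1 : (1 + s) * (Q * log Q) ≤ (1 + s) * (s * Lg) :=
      mul_le_mul_of_nonneg_left hG (by positivity)
    have h2 : s * (κ * E) ≤ - (Q * log Q) := by nlinarith
    have h3 : κ * E = (1 / s) * (s * (κ * E)) := by field_simp
    rw [h3]
    have := mul_le_mul_of_nonneg_left h2 (by positivity : 0 ≤ 1 / s)
    linarith
  set Γ := (l / ρ) * (2 * log 2 - (1 + s) * log 2 * s * τ ^ 2 - c * (1 - (1 - ε) / lam)) -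
    c * exp (-τ) * m with hΓ
  have hΓρ : ρ * Γ = l * B + c * l * ((1 - ε) / lam) - c * ρ * exp (-τ) * m := by
    rw [hΓ, hB]
    field_simp
    ring
  rw [← hΓρ] at hlow
  have h5 : Q * (κ * Γ) ≤ - (1 / s) * (Q * log Q) := by
    have h7 : ρ * (Q * (κ * Γ)) ≤ ρ * (κ * E) := by
      have := mul_le_mul_of_nonneg_left hlow hκ.le
      nlinarith
    have : ρ * (Q * (κ * Γ)) ≤ ρ * (-(1 / s) * (Q * log Q)) := by
      have := mul_le_mul_of_nonneg_left hup hρ.le
      linarith
    exact le_of_mul_le_mul_left this hρ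
  have h6 : log Q ≤ - (κ * s) * Γ := by
    have h7 : Q * (s * (κ * Γ)) ≤ Q * (- log Q) := by
      have := mul_le_mul_of_nonneg_left h5 hs.le
      have e : s * (-(1 / s) * (Q * log Q)) = - (Q * log Q) := by field_simp
      rw [e] at this
      nlinarith
    have := le_of_mul_le_mul_left h7 hQpos
    linarith
  calc Q = exp (log Q) := (Real.exp_log hQpos).symm
    _ ≤ _ := Real.exp_le_exp.2 h6

end Pool.Agent.H80.GR
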