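import Pool.Agent.H80.GR.Def
set_option autoImplicit false

/-!
# The number of vertices with few improving neighbours
-/

namespace Pool.Agent.H80.GR

open Finset

variable {n : ℕ} {K : Fin n → ℕ}

/-- the points of the line through `v` in direction `i` which are not improving -/
noncomputable def NI (f : Vertex K → ℝ) (v : Vertex K) (i : Fin n) : Finset (Fin (K i)) :=
  (univ.erase (v i)).filter fun a => Function.update v i a ∉ improving f v

theorem not_mem_self (f : Vertex K → ℝ) (v : Vertex K) : v ∉ improving f v := by
  intro h
  exact lt_irrefl _ (mem_improving.1 h).2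

theorem card_NI (f : Vertex K → ℝ) (v : Vertex K) :
    ∑ i, (NI f v i).card + (improving f v).card = ∑ i, (K i - 1) := by
  classical
  have h1 : ((improving f v).card : ℝ) =
      ∑ i, (((univ.erase (v i)).filter fun a => Function.update v i a ∈ improving f v).card : ℝ) := by
    have h := sum_nb v (fun w => if w ∈ improving f v then (1 : ℝ) else 0)
    rw [← sum_filter, sum_const, nsmul_eq_mul, mul_one] at h
    have e1 : (nb v).filter (fun w => w ∈ improving f v) = improving f v := by
      ext w
      rw [mem_filter]
      exact ⟨fun h => h.2, fun h => ⟨improving_subset f v h, h⟩⟩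
    rw [e1] at h
    rw [h]
    refine sum_congr rfl fun i _ => ?_
    rw [if_neg (not_mem_self f v), sub_zero, card_filter]
    push_cast
    rw [Finset.sum_erase_eq_sub (mem_univ _), Function.update_eq_self, if_neg (not_mem_self f v),
      sub_zero]
  have h2 : ∀ i, (NI f v i).card +
      ((univ.erase (v i)).filter fun a => Function.update v i a ∈ improving f v).card = K i - 1 := by
    intro i
    unfold NI
    rw [add_comm, Finset.card_filter_add_card_filter_not, card_erase_of_mem (mem_univ _), card_univ,
      Fintype.card_fin]
  have h3 : (improving f v).card =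
      ∑ i, ((univ.erase (v i)).filter fun a => Function.update v i a ∈ improving f v).card := by
    exact_mod_cast h1
  rw [h3, ← sum_add_distrib, sum_congr rfl fun i _ => h2 i]

/-- the sets for which `v` is the best point in direction `i` -/
noncomputable def good (f : Vertex K → ℝ) (v : Vertex K) (i : Fin n) :
    Finset (Finset (Fin (K i))) :=
  univ.filter fun A => v i ∈ A ∧ ∀ a ∈ A, Function.update v i a ∉ improving f v

theorem sum_good (f : Vertex K → ℝ) (v : Vertex K) (i : Fin n) (y : ℝ) :
    ∑ A ∈ good f v i, y ^ (A.card - 1) = (1 + y) ^ (NI f v i).card := by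
  classical
  have h : ∑ A ∈ good f v i, y ^ (A.card - 1) = ∑ B ∈ (NI f v i).powerset, y ^ B.card := by
    apply Finset.sum_nbij' (fun A => A.erase (v i)) (fun B => insert (v i) B)
    · intro A hA
      simp only [good, mem_filter, mem_univ, true_and] at hA
      rw [mem_powerset]
      intro a ha
      rw [mem_erase] at ha
      simp only [NI, mem_filter, mem_erase, mem_univ, and_true]
      exact ⟨ha.1, hA.2 a ha.2⟩
    · intro B hB
      rw [mem_powerset] at hB
      simp only [good, mem_filter, mem_univ, true_and]
      refine ⟨mem_insert_self _ _, ?_⟩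
      intro a ha
      rw [mem_insert] at ha
      rcases ha with rfl | ha
      · rw [Function.update_eq_self]; exact not_mem_self f v
      · have := hB ha
        simp only [NI, mem_filter] at this
        exact this.2
    · intro A hA
      simp only [good, mem_filter, mem_univ, true_and] at hA
      exact insert_erase hA.1
    · intro B hB
      rw [mem_powerset] at hB
      apply erase_insert
      intro h
      have := hB h
      simp [NI] at this
    · intro A hA
      simp only [good, mem_filter, mem_univ, true_and] at hA
      rw [card_erase_of_mem hA.1]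
  rw [h]
  have h2 : ∑ B ∈ (NI f v i).powerset, y ^ B.card * 1 ^ ((NI f v i).card - B.card) =
      (y + 1) ^ (NI f v i).card := Finset.sum_pow_mul_eq_add_pow _ _ _
  rw [add_comm 1 y, ← h2]
  exact sum_congr rfl fun B _ => by simp

/-- the number of vertices by the number of improving neighbours -/
theorem sum_pow_deg (f : Vertex K → ℝ) (h1 : OneMax f) {y : ℝ} (hy : y ≠ 0) :
    ∑ v : Vertex K, (1 + y) ^ (∑ i, (NI f v i).card) = ∏ i, ∑ j ∈ range (K i), (1 + y) ^ j := by
  classical
  have hA : ∀ v : Vertex K, (1 + y) ^ (∑ i, (NI f v i).card) =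
      ∑ A ∈ Fintype.piFinset (fun i => good f v i), ∏ i, y ^ ((A i).card - 1) := by
    intro v
    rw [← Finset.prod_univ_sum (fun i => good f v i) (fun _ A => y ^ (A.card - 1)),
      ← Finset.prod_pow_eq_pow_sum]
    exact prod_congr rfl fun i _ => (sum_good f v i y).symm
  have hB : ∀ v : Vertex K, ∑ A ∈ Fintype.piFinset (fun i => good f v i),
      ∏ i, y ^ ((A i).card - 1) = ∑ A ∈ Fintype.piFinset (fun i : Fin n =>
        (univ.filter fun B : Finset (Fin (K i)) => B.Nonempty)),
          if ∀ i, A i ∈ good f v i then ∏ i, y ^ ((A i).card - 1) else 0 := by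
    intro v
    rw [← sum_filter]
    refine sum_congr ?_ fun _ _ => rfl
    ext A
    simp only [Fintype.mem_piFinset, mem_filter, mem_univ, true_and]
    constructor
    · intro h
      refine ⟨fun i => ?_, h⟩
      have := h i
      simp only [good, mem_filter, mem_univ, true_and] at this
      exact ⟨v i, this.1⟩
    · exact fun h => h.2
  simp only [hA, hB]
  rw [sum_comm]
  have hC : ∀ A ∈ Fintype.piFinset (fun i : Fin n =>
      (univ.filter fun B : Finset (Fin (K i)) => B.Nonempty)),
      (∑ v : Vertex K, if ∀ i, A i ∈ good f v i then ∏ i, y ^ ((A i).card - 1) else 0) =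
        ∏ i, y ^ ((A i).card - 1) := by
    intro A hAn
    simp only [Fintype.mem_piFinset, mem_filter, mem_univ, true_and] at hAn
    obtain ⟨x, hx, hu⟩ := h1 A hAn
    rw [← sum_filter, sum_const]
    have e : (univ.filter fun v : Vertex K => ∀ i, A i ∈ good f v i) = {x} := by
      have key : ∀ v : Vertex K, (∀ i, A i ∈ good f v i) ↔
          ((∀ i, v i ∈ A i) ∧ ∀ y ∈ improving f v, ∃ i, y i ∉ A i) := by
        intro v
        simp only [good, mem_filter, mem_univ, true_and]
        constructor
        · intro h
          refine ⟨fun i => (h i).1, fun y hy => ?_⟩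
          obtain ⟨i, a, ha, rfl⟩ := mem_nb_iff.1 (improving_subset f v hy)
          refine ⟨i, fun hc => ?_⟩
          rw [Function.update_self] at hc
          exact (h i).2 a hc hy
        · rintro ⟨h, h'⟩ i
          refine ⟨h i, fun a ha hc => ?_⟩
          obtain ⟨j, hj⟩ := h' _ hc
          by_cases hji : j = i
          · subst hji
            rw [Function.update_self] at hj
            exact hj ha
          · rw [Function.update_of_ne hji] at hj
            exact hj (h j)
      ext v
      rw [mem_filter, mem_singleton, key]
      constructor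
      · exact fun h => hu v h.2
      · rintro rfl
        exact ⟨mem_univ _, hx⟩
    rw [e, card_singleton, one_smul]
  rw [sum_congr rfl hC]
  rw [← Finset.prod_univ_sum
    (fun i : Fin n => univ.filter fun B : Finset (Fin (K i)) => B.Nonempty)
    (fun _ B => y ^ (B.card - 1))]
  refine prod_congr rfl fun i _ => ?_
  -- one line
  have h2 : y * ∑ B ∈ univ.filter (fun B : Finset (Fin (K i)) => B.Nonempty), y ^ (B.card - 1) =
      (1 + y) ^ (K i) - 1 := by
    rw [mul_sum]
    have e1 : ∀ B ∈ univ.filter (fun B : Finset (Fin (K i)) => B.Nonempty), y * y ^ (B.card - 1) =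
        y ^ B.card := by
      intro B hB
      rw [mem_filter] at hB
      have := card_pos.2 hB.2
      rw [← pow_succ']
      congr 1
      omega
    rw [sum_congr rfl e1]
    have e2 : ∑ B ∈ (univ : Finset (Fin (K i))).powerset,
      y ^ B.card * 1 ^ ((univ : Finset (Fin (K i))).card - B.card) =
      (y + 1) ^ (univ : Finset (Fin (K i))).card := Finset.sum_pow_mul_eq_add_pow _ _ _
    simp only [powerset_univ, card_univ, Fintype.card_fin, one_pow, mul_one] at e2
    rw [add_comm 1 y, ← e2]
    have e3 : univ.filter (fun B : Finset (Fin (K i)) => B.Nonempty) = univ.erase ∅ := by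
      ext B
      simp [nonempty_iff_ne_empty]
    rw [e3, Finset.sum_erase_eq_sub (mem_univ _)]
    simp
  have h3 : y * ∑ j ∈ range (K i), (1 + y) ^ j = (1 + y) ^ (K i) - 1 := by
    have := geom_sum_mul (1 + y) (K i)
    rw [← this]
    ring
  exact mul_left_cancel₀ hy (h2.trans h3.symm)

/-- few vertices have few improving neighbours -/
theorem card_low (hK : ∀ i, 1 ≤ K i) (f : Vertex K → ℝ) (h1 : OneMax f) {z : ℝ}
    (hz : 1 < z) (B : ℕ) :
    ((univ.filter fun v : Vertex K => (improving f v).card < B).card : ℝ) ≤
      z ^ B * ∏ i, ∑ j ∈ range (K i), (1 / z) ^ j := by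
  have hz0 : 0 < z := by linarith
  have h := sum_pow_deg f h1 (y := z - 1) (by linarith)
  have e1 : 1 + (z - 1) = z := by ring
  rw [e1] at h
  have h3 : ∏ i, ∑ j ∈ range (K i), (1 / z) ^ j =
      (∏ i, ∑ j ∈ range (K i), z ^ j) / z ^ (∑ i, (K i - 1)) := by
    rw [← Finset.prod_pow_eq_pow_sum, ← Finset.prod_div_distrib]
    refine prod_congr rfl fun i _ => ?_
    have hi := hK i
    rw [eq_div_iff (by positivity), sum_mul, ← Finset.sum_range_reflect]
    refine sum_congr rfl fun j hj => ?_
    rw [mem_range] at hj
    rw [one_div, inv_pow, inv_mul_eq_div, div_eq_iff (by positivity), ← pow_add]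
    congr 1
    omega
  rw [h3, ← mul_div_assoc, le_div_iff₀ (by positivity), ← h, card_eq_sum_ones, Nat.cast_sum,
    sum_mul, mul_sum]
  have h4 : ∀ v : Vertex K, 0 ≤ z ^ B * z ^ (∑ i, (NI f v i).card) := fun v => by positivity
  refine le_trans ?_ (sum_le_univ_sum_of_nonneg (s := univ.filter fun v : Vertex K =>
    (improving f v).card < B) h4)
  refine sum_le_sum fun v hv => ?_
  rw [mem_filter] at hv
  rw [← pow_add]
  push_cast
  rw [one_mul]
  apply pow_le_pow_right₀ hz.le
  have := card_NI f v
  omega

end Pool.Agent.H80.GR
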