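import Mathlib
set_option autoImplicit false

/-!
# Abstract objective functions on grids and random pivot rules: definitions

The grid is the set of the vertices of a product of `n` simplices, the `i`-th one with `K i`
vertices; two vertices are adjacent if they differ in exactly one coordinate.
-/

namespace Pool.Agent.H80.GR

open Finset

/-- the vertices of the product of `n` simplices, the `i`-th one with `K i` vertices -/
abbrev Vertex {n : ℕ} (K : Fin n → ℕ) : Type := (i : Fin n) → Fin (K i)

variable {n : ℕ} {K : Fin n → ℕ}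

/-- the set of the neighbours of the vertex `x` of the grid with larger value of `f` -/
noncomputable def improving (f : Vertex K → ℝ) (x : Vertex K) :
    Finset (Vertex K) :=
  univ.filter fun y => hammingDist x y = 1 ∧ f x < f y

/-- `f` has exactly one local maximum on every product `A 0 × ⋯ × A (n - 1)` of nonempty sets -/
def OneMax (f : Vertex K → ℝ) : Prop :=
  ∀ A : (i : Fin n) → Finset (Fin (K i)), (∀ i, (A i).Nonempty) → ∃! x : Vertex K,
    (∀ i, x i ∈ A i) ∧ ∀ y ∈ improving f x, ∃ i, y i ∉ A i

/-- `prob f p T h x` is the probability that the rule `p` makes at least `T` further steps from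
the vertex `x` when it has visited the vertices `h` before: `p (x :: h) y` is the probability of the
step to `y`. -/
noncomputable def prob (f : Vertex K → ℝ) (p : List (Vertex K) → Vertex K → ℝ) :
    ℕ → List (Vertex K) → Vertex K → ℝ
  | 0, _, _ => 1
  | T + 1, h, x => ∑ y ∈ improving f x, p (x :: h) y * prob f p T (x :: h) y

/-- `T x` is the expected number of steps of Random-Edge from `x` -/
def RandomEdge (f : Vertex K → ℝ) (T : Vertex K → ℝ) : Prop :=
  ∀ x, (improving f x = ∅ → T x = 0) ∧ ((improving f x).Nonempty →
    T x = 1 + (∑ y ∈ improving f x, T y) / (improving f x).card)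

/-- the set of the neighbours -/
noncomputable def nb (x : Vertex K) : Finset (Vertex K) :=
  univ.filter fun y => hammingDist x y = 1

theorem mem_nb {x y : Vertex K} : y ∈ nb x ↔ ∃! i, y i ≠ x i := by
  simp only [nb, mem_filter, mem_univ, true_and, hammingDist, card_eq_one]
  constructor
  · rintro ⟨i, hi⟩
    have h : ∀ j, x j ≠ y j ↔ j = i := by
      intro j
      have := congrArg (fun s => j ∈ s) hi
      simpa using this
    exact ⟨i, ((h i).2 rfl).symm, fun j hj => (h j).1 (Ne.symm hj)⟩
  · rintro ⟨i, hi, hu⟩
    refine ⟨i, ?_⟩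
    ext j
    simp only [mem_filter, mem_univ, true_and, mem_singleton]
    exact ⟨fun hj => hu j (Ne.symm hj), fun e => e ▸ Ne.symm hi⟩

theorem mem_improving {f : Vertex K → ℝ} {x y : Vertex K} :
    y ∈ improving f x ↔ y ∈ nb x ∧ f x < f y := by
  simp [improving, nb]

theorem nb_symm {x y : Vertex K} (h : y ∈ nb x) : x ∈ nb y := by
  rw [mem_nb] at h ⊢
  simpa [ne_comm] using h

theorem mem_nb_iff {x y : Vertex K} :
    y ∈ nb x ↔ ∃ i a, a ≠ x i ∧ y = Function.update x i a := by
  rw [mem_nb]
  constructor
  · rintro ⟨i, hi, hu⟩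
    refine ⟨i, y i, hi, ?_⟩
    funext j
    by_cases h : j = i
    · subst h; simp
    · rw [Function.update_of_ne h]
      by_contra hc
      exact h (hu j hc)
  · rintro ⟨i, a, ha, rfl⟩
    refine ⟨i, by simpa using ha, ?_⟩
    intro j hj
    by_contra hc
    exact hj (Function.update_of_ne hc _ _)

theorem sum_nb (x : Vertex K) (F : Vertex K → ℝ) :
    ∑ y ∈ nb x, F y = ∑ i, (∑ a, F (Function.update x i a) - F x) := by
  classical
  have h1 : ∀ i, ∑ a, F (Function.update x i a) - F x =
      ∑ a ∈ univ.erase (x i), F (Function.update x i a) := by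
    intro i
    rw [Finset.sum_erase_eq_sub (mem_univ _), Function.update_eq_self]
  simp only [h1]
  rw [Finset.sum_sigma']
  symm
  apply Finset.sum_bij (fun (p : (i : Fin n) × Fin (K i)) _ => Function.update x p.1 p.2)
  · rintro ⟨i, a⟩ hp
    simp only [mem_sigma, mem_univ, mem_erase, true_and, and_true] at hp
    exact mem_nb_iff.2 ⟨i, a, hp, rfl⟩
  · rintro ⟨i, a⟩ hp ⟨j, b⟩ hq h
    simp only [mem_sigma, mem_univ, mem_erase, true_and, and_true] at hp hq
    have h2 : i = j := by
      by_contra hc
      have h3 := congrFun h i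
      simp only [Function.update_self] at h3
      rw [Function.update_of_ne hc] at h3
      exact hp h3
    subst h2
    have h3 := congrFun h i
    simp only [Function.update_self] at h3
    rw [h3]
  · intro y hy
    obtain ⟨i, a, ha, rfl⟩ := mem_nb_iff.1 hy
    exact ⟨⟨i, a⟩, by simp [ha], rfl⟩
  · rintro ⟨i, a⟩ _
    rfl

theorem card_nb (x : Vertex K) : (nb x).card = ∑ i, (K i - 1) := by
  have h := sum_nb x (fun _ => 1)
  simp only [sum_const, card_univ, Fintype.card_fin, nsmul_eq_mul, mul_one] at h
  have h2 : ((nb x).card : ℝ) = ((∑ i, (K i - 1) : ℕ) : ℝ) := by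
    rw [h, Nat.cast_sum]
    refine sum_congr rfl fun i _ => ?_
    have : 1 ≤ K i := (x i).pos
    push_cast [Nat.cast_sub this]
    ring
  exact_mod_cast h2

theorem improving_subset (f : Vertex K → ℝ) (x : Vertex K) : improving f x ⊆ nb x :=
  fun _ hy => (mem_improving.1 hy).1

theorem card_improving_le (f : Vertex K → ℝ) (x : Vertex K) :
    (improving f x).card ≤ ∑ i, (K i - 1) := by
  rw [← card_nb x]
  exact card_le_card (improving_subset f x)

theorem card_in_le (f : Vertex K → ℝ) (w : Vertex K) :
    (univ.filter fun v => w ∈ improving f v).card ≤ ∑ i, (K i - 1) := by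
  rw [← card_nb w]
  apply card_le_card
  intro v hv
  rw [mem_filter] at hv
  exact nb_symm (mem_improving.1 hv.2).1

end Pool.Agent.H80.GR
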