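import Pool.Agent.H80.GR.Two
set_option autoImplicit false

/-!
# The entropy inequality of the complete graph
-/

namespace Pool.Agent.H80.GR

open Finset Real Pool.Agent.H80.RE

variable {ι : Type*} [DecidableEq ι]

/-- the sum over the ordered pairs -/
noncomputable def PP (a : ι → ℝ) (s : Finset ι) : ℝ :=
  ∑ i ∈ s, ∑ j ∈ s, e2 (a i) (a j) - ∑ i ∈ s, e2 (a i) (a i)

/-- the entropy -/
noncomputable def EE (a : ι → ℝ) (s : Finset ι) : ℝ :=
  ∑ i ∈ s, negMulLog (a i) - negMulLog (∑ i ∈ s, a i)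

theorem PP_erase (a : ι → ℝ) (s : Finset ι) {m : ℕ} (hs : s.card = m + 2) :
    ∑ i ∈ s, PP a (s.erase i) = m * PP a s := by
  have h1 : ∀ i ∈ s, PP a (s.erase i) = PP a s - 2 * ∑ j ∈ s, e2 (a i) (a j) +
      2 * e2 (a i) (a i) := by
    intro i hi
    unfold PP
    simp only [Finset.sum_erase_eq_sub hi]
    rw [sum_sub_distrib]
    have : ∑ x ∈ s, e2 (a x) (a i) = ∑ j ∈ s, e2 (a i) (a j) :=
      sum_congr rfl fun j _ => e2_comm _ _
    rw [this]
    ring
  rw [sum_congr rfl h1, sum_add_distrib, sum_sub_distrib, sum_const, nsmul_eq_mul, hs,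
    ← mul_sum, ← mul_sum]
  unfold PP
  push_cast
  ring

theorem EE_erase (a : ι → ℝ) (s : Finset ι) {i : ι} (hi : i ∈ s) :
    EE a s = e2 (a i) (∑ j ∈ s.erase i, a j) + EE a (s.erase i) := by
  unfold EE e2
  rw [Finset.sum_erase_eq_sub hi, Finset.sum_erase_eq_sub hi]
  have : a i + (∑ x ∈ s, a x - a i) = ∑ x ∈ s, a x := by ring
  rw [this]
  ring

/-- splitting off one point -/
theorem split (a : ι → ℝ) (ha : ∀ i, 0 ≤ a i) (s : Finset ι) {m : ℕ} (hs : s.card = m + 2) :
    e2 1 (1 / ((m : ℝ) + 1)) * PP a s ≤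
      2 * log 2 * ∑ i ∈ s, e2 (a i) (∑ j ∈ s.erase i, a j) := by
  set t : ℝ := 1 / ((m : ℝ) + 1) with ht
  have ht0 : 0 < t := by positivity
  have ht1 : t ≤ 1 := by
    rw [ht, div_le_one (by positivity)]
    have : (0 : ℝ) ≤ m := Nat.cast_nonneg m
    linarith
  have hl : 0 < log 2 := Real.log_pos (by norm_num)
  have h1 : ∀ i ∈ s, ∑ j ∈ s, e2 (t * a i) (a j) - e2 (t * a i) (a i) ≤
      e2 (a i) (∑ j ∈ s.erase i, a j) := by
    intro i hi
    have h2 := e2_sum (s.erase i) (fun _ => t * a i) a (fun _ => by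
      have := ha i; positivity) ha
    rw [Finset.sum_erase_eq_sub hi, sum_const, card_erase_of_mem hi, hs, nsmul_eq_mul] at h2
    have h3 : ((m + 2 - 1 : ℕ) : ℝ) * (t * a i) = a i := by
      have : m + 2 - 1 = m + 1 := by omega
      rw [this, ht]
      push_cast
      field_simp
    rw [h3] at h2
    exact h2
  have h2 := sum_le_sum h1
  have h3 : e2 1 t * (2 * PP a s) ≤ log 2 * (2 * (∑ i ∈ s, ∑ j ∈ s, e2 (t * a i) (a j) -
      ∑ i ∈ s, e2 (t * a i) (a i)) * 2) := by
    have h4 : ∀ i ∈ s, ∀ j ∈ s, e2 1 t * e2 (a i) (a j) - (if i = j then e2 1 t * e2 (a i) (a i) else 0)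
        ≤ log 2 * (e2 (t * a i) (a j) + e2 (t * a j) (a i)) -
          (if i = j then log 2 * (2 * e2 (t * a i) (a i)) else 0) := by
      intro i _ j _
      by_cases h : i = j
      · subst h
        simp only [if_true]
        linarith
      · simp only [if_neg h, sub_zero]
        exact two_point ht0 ht1 (ha i) (ha j)
    have h5 := sum_le_sum fun i hi => sum_le_sum (h4 i hi)
    simp only [sum_sub_distrib, sum_ite_eq, ← mul_sum, sum_add_distrib] at h5
    have h6 : ∑ i ∈ s, (if i ∈ s then e2 1 t * e2 (a i) (a i) else 0) =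
        e2 1 t * ∑ i ∈ s, e2 (a i) (a i) := by
      rw [mul_sum]
      exact sum_congr rfl fun i hi => if_pos hi
    have h7 : ∑ i ∈ s, (if i ∈ s then log 2 * (2 * e2 (t * a i) (a i)) else 0) =
        log 2 * (2 * ∑ i ∈ s, e2 (t * a i) (a i)) := by
      rw [mul_sum, mul_sum]
      exact sum_congr rfl fun i hi => if_pos hi
    have h8 : ∑ i ∈ s, ∑ j ∈ s, e2 (t * a j) (a i) = ∑ i ∈ s, ∑ j ∈ s, e2 (t * a i) (a j) := by
      rw [sum_comm]
    rw [h6, h7, h8] at h5
    unfold PP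
    linarith
  rw [sum_sub_distrib] at h2
  have h4 := mul_le_mul_of_nonneg_left h2 hl.le
  linarith

/-- **The entropy inequality of the complete graph.** -/
theorem line (a : ι → ℝ) (ha : ∀ i, 0 ≤ a i) (m : ℕ) : ∀ s : Finset ι, s.card = m + 2 →
    log ((m : ℝ) + 2) * PP a s ≤ 2 * ((m : ℝ) + 1) * log 2 * EE a s := by
  induction m with
  | zero =>
    intro s hs
    obtain ⟨i, j, hij, rfl⟩ := Finset.card_eq_two.1 hs
    unfold PP EE
    simp only [sum_pair hij]
    rw [e2_comm (a j) (a i)]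
    unfold e2
    norm_num
    linarith
  | succ m ih =>
    intro s hs
    have hl : 0 < log 2 := Real.log_pos (by norm_num)
    have h1 := split a ha s (m := m + 1) hs
    have h2 := PP_erase a s (m := m + 1) hs
    have h3 : ((m : ℝ) + 3) * EE a s = ∑ i ∈ s, e2 (a i) (∑ j ∈ s.erase i, a j) +
        ∑ i ∈ s, EE a (s.erase i) := by
      rw [← sum_add_distrib, ← sum_congr rfl fun i hi => EE_erase a s hi, sum_const, nsmul_eq_mul, hs]
      push_cast
      ring
    have h4 : log ((m : ℝ) + 2) * ∑ i ∈ s, PP a (s.erase i) ≤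
        2 * ((m : ℝ) + 1) * log 2 * ∑ i ∈ s, EE a (s.erase i) := by
      rw [mul_sum, mul_sum]
      apply sum_le_sum
      intro i hi
      apply ih
      rw [card_erase_of_mem hi, hs]
      omega
    rw [h2] at h4
    push_cast at h1 h4 ⊢
    have hm : (0 : ℝ) ≤ m := Nat.cast_nonneg m
    have e1 : (m : ℝ) + 1 + 1 = m + 2 := by ring
    have e3 : (m : ℝ) + 1 + 2 = m + 3 := by ring
    rw [e1] at h1
    rw [e1, e3]
    have h5 : log ((m : ℝ) + 2) * PP a s ≤ 2 * log 2 * ∑ i ∈ s, EE a (s.erase i) := by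
      have h6 : ((m : ℝ) + 1) * (log ((m : ℝ) + 2) * PP a s) ≤
          ((m : ℝ) + 1) * (2 * log 2 * ∑ i ∈ s, EE a (s.erase i)) := by linarith
      exact le_of_mul_le_mul_left h6 (by positivity)
    have h6 : e2 1 (1 / ((m : ℝ) + 2)) + log ((m : ℝ) + 2) =
        ((m : ℝ) + 3) / (m + 2) * log ((m : ℝ) + 3) := by
      rw [e2_one]
      have e4 : 1 + 1 / ((m : ℝ) + 2) = (m + 3) / (m + 2) := by field_simp; ring
      rw [e4, Real.log_div (by positivity) (by positivity), one_div, Real.log_inv]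
      field_simp
      ring
    have h7 : ((m : ℝ) + 3) / (m + 2) * log ((m : ℝ) + 3) * PP a s ≤
        2 * log 2 * (((m : ℝ) + 3) * EE a s) := by
      rw [← h6, h3]
      linarith
    have h8 : ((m : ℝ) + 2) * (((m : ℝ) + 3) / (m + 2) * log ((m : ℝ) + 3) * PP a s) ≤
        ((m : ℝ) + 2) * (2 * log 2 * (((m : ℝ) + 3) * EE a s)) :=
      mul_le_mul_of_nonneg_left h7 (by positivity)
    have h9 : ((m : ℝ) + 2) * (((m : ℝ) + 3) / (m + 2) * log ((m : ℝ) + 3) * PP a s) =
        ((m : ℝ) + 3) * (log ((m : ℝ) + 3) * PP a s) := by field_simp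
    have h10 : ((m : ℝ) + 2) * (2 * log 2 * (((m : ℝ) + 3) * EE a s)) =
        ((m : ℝ) + 3) * (2 * ((m : ℝ) + 2) * log 2 * EE a s) := by ring
    rw [h9, h10] at h8
    exact le_of_mul_le_mul_left h8 (by positivity)

end Pool.Agent.H80.GR
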