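import Pool.Agent.H80.GR.Def
import Pool.Agent.H80.GR.Line
set_option autoImplicit false

/-!
# The entropy inequality of the grid
-/

namespace Pool.Agent.H80.GR

open Finset Real Pool.Agent.H80.RE

theorem PP_eq {ι : Type*} [DecidableEq ι] (a : ι → ℝ) (s : Finset ι) :
    PP a s = ∑ i ∈ s, ∑ j ∈ s.erase i, e2 (a i) (a j) := by
  unfold PP
  rw [← sum_sub_distrib]
  exact sum_congr rfl fun i hi => by rw [Finset.sum_erase_eq_sub hi]

theorem PP_nonneg {ι : Type*} [DecidableEq ι] (a : ι → ℝ) (ha : ∀ i, 0 ≤ a i) (s : Finset ι) :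
    0 ≤ PP a s := by
  rw [PP_eq]
  exact sum_nonneg fun i _ => sum_nonneg fun j _ => e2_nonneg (ha i) (ha j)

theorem PP_sum {ι κ : Type*} [DecidableEq ι] (s : Finset ι) (r : Finset κ) (a : κ → ι → ℝ)
    (ha : ∀ x i, 0 ≤ a x i) : ∑ x ∈ r, PP (a x) s ≤ PP (fun i => ∑ x ∈ r, a x i) s := by
  simp only [PP_eq]
  rw [sum_comm]
  refine sum_le_sum fun i _ => ?_
  rw [sum_comm]
  refine sum_le_sum fun j _ => ?_
  exact e2_sum r (fun x => a x i) (fun x => a x j) (fun x => ha x i) (fun x => ha x j)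

/-- the constant decreases with the number of points -/
theorem log_step (m : ℕ) : ((m : ℝ) + 1) * log ((m : ℝ) + 3) ≤ ((m : ℝ) + 2) * log ((m : ℝ) + 2) := by
  have hm : (0 : ℝ) ≤ m := Nat.cast_nonneg m
  have h1 := Real.one_sub_inv_le_log_of_pos (x := (m : ℝ) + 2) (by positivity)
  have h2 : log ((m : ℝ) + 3) ≤ log ((m : ℝ) + 2) + 1 / ((m : ℝ) + 2) := by
    have h3 := Real.log_le_sub_one_of_pos (x := ((m : ℝ) + 3) / (m + 2)) (by positivity)
    rw [Real.log_div (by positivity) (by positivity)] at h3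
    have h4 : ((m : ℝ) + 3) / (m + 2) - 1 = 1 / (m + 2) := by field_simp; ring
    linarith
  have h5 := mul_le_mul_of_nonneg_left h2 (by positivity : 0 ≤ (m : ℝ) + 1)
  have h6 : ((m : ℝ) + 1) * (1 / (m + 2)) = 1 - ((m : ℝ) + 2)⁻¹ := by field_simp; ring
  rw [mul_add, h6] at h5
  linarith

theorem log_mono (a b : ℕ) : ((a : ℝ) + 1) * log ((a : ℝ) + b + 2) ≤
    ((a : ℝ) + b + 1) * log ((a : ℝ) + 2) := by
  induction b with
  | zero => simp
  | succ b ih =>
    have h := log_step (a + b)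
    push_cast at h ih ⊢
    have ha : (0 : ℝ) ≤ a := Nat.cast_nonneg a
    have hb : (0 : ℝ) ≤ b := Nat.cast_nonneg b
    have e1 : (a : ℝ) + (b + 1) + 2 = a + b + 3 := by ring
    rw [e1]
    have h1 : ((a : ℝ) + 1) * (((a : ℝ) + b + 1) * log ((a : ℝ) + b + 3)) ≤
        ((a : ℝ) + 1) * (((a : ℝ) + b + 2) * log ((a : ℝ) + b + 2)) :=
      mul_le_mul_of_nonneg_left h (by positivity)
    have h2 : ((a : ℝ) + b + 2) * (((a : ℝ) + 1) * log ((a : ℝ) + b + 2)) ≤
        ((a : ℝ) + b + 2) * (((a : ℝ) + b + 1) * log ((a : ℝ) + 2)) :=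
      mul_le_mul_of_nonneg_left ih (by positivity)
    have h3 : ((a : ℝ) + b + 1) * (((a : ℝ) + 1) * log ((a : ℝ) + b + 3)) ≤
        ((a : ℝ) + b + 1) * (((a : ℝ) + (b + 1) + 1) * log ((a : ℝ) + 2)) := by linarith
    exact le_of_mul_le_mul_left h3 (by positivity)

/-- the inequality of a line with at most `m + 2` points -/
theorem line_le {q m : ℕ} (hq : q ≤ m + 2) (a : Fin q → ℝ) (ha : ∀ i, 0 ≤ a i) :
    log ((m : ℝ) + 2) * PP a univ ≤ 2 * ((m : ℝ) + 1) * log 2 * EE a univ := by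
  have hm : (0 : ℝ) ≤ m := Nat.cast_nonneg m
  rcases Nat.lt_or_ge q 2 with h | h
  · have h1 : PP a univ = 0 := by
      rw [PP_eq]
      apply sum_eq_zero
      intro i _
      apply sum_eq_zero
      intro j hj
      rw [mem_erase] at hj
      exfalso
      apply hj.1
      ext
      have := i.2
      have := j.2
      omega
    have h2 : EE a univ = 0 := by
      unfold EE
      interval_cases q
      · simp
      · simp
    rw [h1, h2]; simp
  · obtain ⟨c, rfl⟩ : ∃ c, q = c + 2 := ⟨q - 2, by omega⟩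
    obtain ⟨b, rfl⟩ : ∃ b, m = c + b := ⟨m - c, by omega⟩
    have h1 := line a ha c univ (by rw [card_univ, Fintype.card_fin])
    have h2 := log_mono c b
    have hP := PP_nonneg a ha univ
    have hc : (0 : ℝ) ≤ c := Nat.cast_nonneg c
    have hb : (0 : ℝ) ≤ b := Nat.cast_nonneg b
    push_cast
    have h3 : ((c : ℝ) + 1) * log ((c : ℝ) + b + 2) * PP a univ ≤
        ((c : ℝ) + b + 1) * log ((c : ℝ) + 2) * PP a univ := mul_le_mul_of_nonneg_right h2 hP
    have h4 : ((c : ℝ) + b + 1) * (log ((c : ℝ) + 2) * PP a univ) ≤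
        ((c : ℝ) + b + 1) * (2 * ((c : ℝ) + 1) * log 2 * EE a univ) :=
      mul_le_mul_of_nonneg_left h1 (by positivity)
    have h5 : ((c : ℝ) + 1) * (log ((c : ℝ) + b + 2) * PP a univ) ≤
        ((c : ℝ) + 1) * (2 * ((c : ℝ) + b + 1) * log 2 * EE a univ) := by linarith
    exact le_of_mul_le_mul_left h5 (by positivity)

theorem sum_grid_succ {n : ℕ} {K : Fin (n + 1) → ℕ} (F : Vertex K → ℝ) :
    ∑ v, F v = ∑ b : Fin (K 0), ∑ x : Vertex (fun i : Fin n => K i.succ),
      F (Fin.cons (α := fun i => Fin (K i)) b x) := by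
  rw [← (Fin.consEquiv (fun i : Fin (n + 1) => Fin (K i))).sum_comp, Fintype.sum_prod_type]
  rfl

/-- the sum over the neighbours -/
noncomputable def NN {n : ℕ} {K : Fin n → ℕ} (g : Vertex K → ℝ) : ℝ :=
  ∑ v, ∑ i, (∑ a, e2 (g v) (g (Function.update v i a)) - e2 (g v) (g v))

theorem grid_entropy (m : ℕ) : ∀ (n : ℕ) (K : Fin n → ℕ) (_ : ∀ i, K i ≤ m + 2)
    (g : Vertex K → ℝ), (∀ v, 0 ≤ g v) → log ((m : ℝ) + 2) * NN g ≤
      2 * ((m : ℝ) + 1) * log 2 * (∑ v, negMulLog (g v) - negMulLog (∑ v, g v)) := by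
  intro n
  induction n with
  | zero =>
    intro K _ g _
    unfold NN
    simp
  | succ n ih =>
    intro K hK g hg
    set G : Fin (K 0) → ℝ := fun b => ∑ x : Vertex (fun i : Fin n => K i.succ),
      g (Fin.cons (α := fun i => Fin (K i)) b x) with hG
    have hG0 : ∀ b, 0 ≤ G b := fun b => sum_nonneg fun x _ => hg _
    have h1 : NN g = ∑ x : Vertex (fun i : Fin n => K i.succ),
          PP (fun b => g (Fin.cons (α := fun i => Fin (K i)) b x)) univ +
        ∑ b, NN (fun x : Vertex (fun i : Fin n => K i.succ) =>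
          g (Fin.cons (α := fun i => Fin (K i)) b x)) := by
      unfold NN
      rw [sum_grid_succ]
      simp only [Fin.sum_univ_succ, Fin.update_cons_zero, ← Fin.cons_update, sum_add_distrib]
      congr 1
      rw [sum_comm]
      refine sum_congr rfl fun x _ => ?_
      unfold PP
      rw [sum_sub_distrib]
    have h2 := PP_sum (univ : Finset (Fin (K 0)))
      (univ : Finset (Vertex (fun i : Fin n => K i.succ)))
      (fun x b => g (Fin.cons (α := fun i => Fin (K i)) b x)) (fun x b => hg _)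
    have h3 := line_le (hK 0) G hG0
    have hl : 0 ≤ log ((m : ℝ) + 2) := by
      apply Real.log_nonneg
      have : (0 : ℝ) ≤ m := Nat.cast_nonneg m
      linarith
    have h4 := mul_le_mul_of_nonneg_left h2 hl
    have h5 := sum_le_sum fun (b : Fin (K 0)) (_ : b ∈ univ) =>
      ih (fun i => K i.succ) (fun i => hK i.succ)
        (fun x => g (Fin.cons (α := fun i => Fin (K i)) b x)) fun _ => hg _
    rw [← mul_sum, ← mul_sum, sum_sub_distrib] at h5
    rw [h1, sum_grid_succ (fun v => negMulLog (g v)), sum_grid_succ g]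
    unfold EE at h3
    have h6 : PP (fun b => ∑ x : Vertex (fun i : Fin n => K i.succ),
      g (Fin.cons (α := fun i => Fin (K i)) b x)) univ = PP G univ := rfl
    rw [h6] at h4
    have h7 : ∑ b : Fin (K 0), negMulLog (∑ x : Vertex (fun i : Fin n => K i.succ),
      g (Fin.cons (α := fun i => Fin (K i)) b x)) = ∑ b, negMulLog (G b) := rfl
    rw [h7] at h5
    have h8 : ∑ b : Fin (K 0), ∑ x : Vertex (fun i : Fin n => K i.succ),
      g (Fin.cons (α := fun i => Fin (K i)) b x) = ∑ b, G b := rfl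
    rw [h8]
    linarith

/-- **The entropy inequality of the grid.** -/
theorem out_entropy {n : ℕ} {K : Fin n → ℕ} (m : ℕ) (hK : ∀ i, K i ≤ m + 2) (f : Vertex K → ℝ)
    (g : Vertex K → ℝ) (hg : ∀ v, 0 ≤ g v) :
    (log ((m : ℝ) + 2) / (((m : ℝ) + 1) * log 2)) * ∑ v, ∑ w ∈ improving f v, e2 (g v) (g w) ≤
      ∑ v, negMulLog (g v) - negMulLog (∑ v, g v) := by
  classical
  have hl : 0 < log 2 := Real.log_pos (by norm_num)
  have h1 := grid_entropy m n K hK g hg
  have h2 : NN g = ∑ v, ∑ w ∈ nb v, e2 (g v) (g w) := by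
    unfold NN
    refine sum_congr rfl fun v _ => ?_
    rw [sum_nb v (fun w => e2 (g v) (g w))]
  have hnn : ∀ v w, 0 ≤ e2 (g v) (g w) := fun v w => e2_nonneg (hg v) (hg w)
  -- the two directions of an edge
  have h3 : 2 * ∑ v, ∑ w ∈ improving f v, e2 (g v) (g w) ≤ NN g := by
    have e1 : ∀ v, ∑ w ∈ improving f v, e2 (g v) (g w) =
        ∑ w, if w ∈ nb v ∧ f v < f w then e2 (g v) (g w) else 0 := by
      intro v
      rw [← sum_filter]
      refine sum_congr ?_ fun _ _ => rfl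
      ext w
      simp [mem_improving]
    have e3 : ∑ v, ∑ w ∈ improving f v, e2 (g v) (g w) =
        ∑ v, ∑ w, if w ∈ nb v ∧ f w < f v then e2 (g v) (g w) else 0 := by
      rw [sum_congr rfl fun v _ => e1 v, sum_comm]
      refine sum_congr rfl fun v _ => sum_congr rfl fun w _ => ?_
      by_cases h : v ∈ nb w ∧ f w < f v
      · rw [if_pos h, if_pos ⟨nb_symm h.1, h.2⟩, e2_comm]
      · rw [if_neg h, if_neg]
        exact fun h' => h ⟨nb_symm h'.1, h'.2⟩
    have e4 : ∑ v, ∑ w ∈ nb v, e2 (g v) (g w) =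
        ∑ v, ∑ w, if w ∈ nb v then e2 (g v) (g w) else 0 := by
      refine sum_congr rfl fun v _ => ?_
      rw [← sum_filter]
      refine sum_congr ?_ fun _ _ => rfl
      ext w; simp
    rw [h2, e4, two_mul]
    nth_rewrite 1 [e3]
    rw [sum_congr rfl fun v _ => e1 v, ← sum_add_distrib]
    refine sum_le_sum fun v _ => ?_
    rw [← sum_add_distrib]
    refine sum_le_sum fun w _ => ?_
    by_cases h : w ∈ nb v
    · rcases lt_trichotomy (f v) (f w) with h' | h' | h'
      · simp [h, h', h'.not_gt]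
      · simp [h, h', hnn]
      · simp [h, h', h'.not_gt]
    · simp [h]
  have hlk : 0 ≤ log ((m : ℝ) + 2) := by
    apply Real.log_nonneg
    have : (0 : ℝ) ≤ m := Nat.cast_nonneg m
    linarith
  have h4 := mul_le_mul_of_nonneg_left h3 hlk
  rw [div_mul_eq_mul_div, div_le_iff₀ (by positivity)]
  linarith

end Pool.Agent.H80.GR
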