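import Pool.Agent.H80.GR.Main
import Pool.Agent.H80.GR.Grid
import Pool.Agent.H80.GR.Count
set_option autoImplicit false

/-!
# The bound for the number of steps on grids
-/

namespace Pool.Agent.H80.GR

open Finset Real Pool.Agent.H80.RE

theorem log_nat_le (m : ℕ) : log ((m : ℝ) + 2) ≤ ((m : ℝ) + 1) * log 2 := by
  have h1 : ((m : ℝ) + 2) ≤ 2 ^ (m + 1) := by
    have : m + 2 ≤ 2 ^ (m + 1) := by
      have := Nat.lt_two_pow_self (n := m + 1)
      omega
    exact_mod_cast this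
  have h2 := Real.log_le_log (by positivity) h1
  rw [Real.log_pow] at h2
  push_cast at h2
  exact h2

theorem card_vertex_le {n k : ℕ} (K : Fin n → ℕ) (hK : ∀ i, K i ≤ k) :
    ((Fintype.card (Vertex K) : ℕ) : ℝ) ≤ (k : ℝ) ^ n := by
  have e1 : Fintype.card ((i : Fin n) → Fin (K i)) ≤ k ^ n := by
    rw [Fintype.card_pi]
    calc ∏ i, Fintype.card (Fin (K i)) = ∏ i, K i := by simp
      _ ≤ ∏ _i : Fin n, k := Finset.prod_le_prod' fun i _ => hK i
      _ = k ^ n := by simp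
  exact_mod_cast e1

theorem one_le_prod_sum {n : ℕ} {K : Fin n → ℕ} (hK : ∀ i, 1 ≤ K i) (b : ℝ) :
    1 ≤ ∏ i, ∑ j ∈ range (K i), exp (-b) ^ j := by
  have h : ∏ _i : Fin n, (1 : ℝ) ≤ ∏ i, ∑ j ∈ range (K i), exp (-b) ^ j := by
    apply Finset.prod_le_prod (fun _ _ => zero_le_one)
    intro i _
    have h := single_le_sum (f := fun j => exp (-b) ^ j)
      (fun j _ => (by positivity : 0 ≤ exp (-b) ^ j)) (mem_range.2 (hK i))
    simpa using h
  simpa using h

theorem fin_calc {C2 C1 a b c r E A Cm : ℝ} (hC2 : 0 ≤ C2) (hr : 0 ≤ r) (hA : 0 ≤ A)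
    (ha : 0 ≤ a) (hE : 0 ≤ E) (h1 : c ≤ a * b) (h2 : b * r ≤ C1 * E) (hC : C2 * a * C1 ≤ Cm) :
    C2 * (c * (r * A)) ≤ Cm * E * A := by
  have hrA : 0 ≤ r * A := mul_nonneg hr hA
  calc C2 * (c * (r * A)) ≤ C2 * (a * b * (r * A)) :=
        mul_le_mul_of_nonneg_left (mul_le_mul_of_nonneg_right h1 hrA) hC2
    _ = C2 * a * (b * r) * A := by ring
    _ ≤ C2 * a * (C1 * E) * A :=
        mul_le_mul_of_nonneg_right (mul_le_mul_of_nonneg_left h2 (mul_nonneg hC2 ha)) hA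
    _ = C2 * a * C1 * E * A := by ring
    _ ≤ _ := mul_le_mul_of_nonneg_right (mul_le_mul_of_nonneg_right hC hE) hA

theorem fin_calc2 {x y E A Cm : ℝ} (h1 : x ≤ y) (h2 : y ≤ Cm) (hy : 0 ≤ y) (hE : 1 ≤ E)
    (hA : 1 ≤ A) : x ≤ Cm * E * A := by
  have h3 : 1 ≤ E * A := one_le_mul_of_one_le_of_one_le hE hA
  have h4 : Cm * 1 ≤ Cm * (E * A) := mul_le_mul_of_nonneg_left h3 (hy.trans h2)
  rw [← mul_assoc] at h4
  linarith

/-- **The bound for the number of steps.** -/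
theorem main {k : ℕ} (hk : 2 ≤ k) {ρ ε : ℝ} (hρ : 1 ≤ ρ) (hε : 0 < ε) :
    ∃ C : ℝ, ∀ (n : ℕ) (K : Fin n → ℕ), (∀ i, K i ≤ k) → ∀ f : Vertex K → ℝ,
      Function.Injective f → OneMax f →
      ∀ (S : Type) (W : Walk f (improving f) ρ S) (N : ℕ) (σ0 : S), W.occ N σ0 1 ≤
        C * (1 + ε) ^ n * ∏ i, ∑ j ∈ range (K i),
          exp (-(2 * log k / (((k : ℝ) - 1) * ρ))) ^ j := by
  obtain ⟨m, hm⟩ : ∃ m, k = m + 2 := ⟨k - 2, by omega⟩
  have hkr : (k : ℝ) = (m : ℝ) + 2 := by rw [hm]; push_cast; ring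
  have hm0 : (0 : ℝ) ≤ m := Nat.cast_nonneg m
  have hl2 : 0 < log 2 := Real.log_pos (by norm_num)
  have hlk : 0 < log ((m : ℝ) + 2) := Real.log_pos (by linarith)
  set κ : ℝ := log ((m : ℝ) + 2) / (((m : ℝ) + 1) * log 2) with hκd
  have hκ : 0 < κ := by positivity
  have hκ1 : κ ≤ 1 := by
    rw [hκd, div_le_one (by positivity)]
    exact log_nat_le m
  set b : ℝ := κ * (2 * log 2 / ρ) with hb
  have hb0 : 0 < b := by positivity
  have hbe : b = 2 * log k / (((k : ℝ) - 1) * ρ) := by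
    rw [hb, hκd, hkr]
    have : (m : ℝ) + 2 - 1 = m + 1 := by ring
    rw [this]
    field_simp
  rw [← hbe]
  have hlε : 0 < log (1 + ε) := Real.log_pos (by linarith)
  set η := log (1 + ε) / (4 * ((m : ℝ) + 1)) with hη
  have hη0 : 0 < η := by positivity
  set r := exp (2 * η * ((m : ℝ) + 1)) with hr
  have hr0 : 0 < r := by positivity
  have hrR : r < 1 + ε := by
    have h1 : exp (4 * η * ((m : ℝ) + 1)) = 1 + ε := by
      have : 4 * η * ((m : ℝ) + 1) = log (1 + ε) := by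
        rw [hη]; field_simp
      rw [this, Real.exp_log (by linarith)]
    have h2 : exp (2 * η * ((m : ℝ) + 1)) < exp (4 * η * ((m : ℝ) + 1)) := by
      apply Real.exp_lt_exp.2
      nlinarith [mul_pos hη0 (by linarith : (0 : ℝ) < (m : ℝ) + 1)]
    rw [h1] at h2
    exact h2
  obtain ⟨k0, hk0, n0, hren⟩ := ren hρ hη0 hκ hκ1
  set M := ⌈b / η⌉₊ + 1 with hM
  have hM1 : 1 ≤ M := by omega
  have hbM : b / M ≤ η := by
    rw [div_le_iff₀ (by positivity)]
    have h1 : b / η ≤ M := by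
      rw [hM]; push_cast
      have := Nat.le_ceil (b / η)
      linarith
    rw [div_le_iff₀ hη0] at h1
    linarith
  set p := 3 * M + (6 + 3 * M + 3 * M * k0) with hp
  obtain ⟨C1, hC1, hC1'⟩ := poly_exp p hr0 hrR
  set C2 := 2 * M * (2 + 8 * M * (4 * M) ^ k0 * exp (η + b)) with hC2
  have hC20 : 0 ≤ C2 := by positivity
  refine ⟨max (C2 * ((m : ℝ) + 1) ^ p * C1) ((k : ℝ) ^ (max n0 1)),
    fun n K hK f hf h1 S W N σ0 => ?_⟩
  have hε1 : 1 ≤ (1 + ε) ^ n := one_le_pow₀ (by linarith)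
  have hK1 : ∀ i, 1 ≤ K i := fun i => (W.X σ0 i).pos
  set A := ∏ i, ∑ j ∈ range (K i), exp (-b) ^ j with hA
  have hA1 : 1 ≤ A := one_le_prod_sum hK1 b
  have hk1 : k - 1 = m + 1 := by omega
  rcases le_or_gt (max n0 1) n with hn | hn
  · have hnd : n ≤ n * (k - 1) := by
      rw [hk1]; exact Nat.le_mul_of_pos_right n (by omega)
    have hn1 : 1 ≤ n := (le_max_right _ _).trans hn
    have hn0 : n0 ≤ n := (le_max_left _ _).trans hn
    have hsum : ∑ i, (K i - 1) ≤ n * (k - 1) := by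
      have h := Finset.sum_le_card_nsmul univ (fun i => K i - 1) (k - 1) (fun i _ => by
        have := hK i
        omega)
      simpa using h
    have hcount : ∀ B : ℕ, ((low (improving f) B).card : ℝ) ≤ exp (b * B) * A := by
      intro B
      have e1 := card_low hK1 f h1 (z := exp b) (Real.one_lt_exp_iff.2 hb0) B
      have e2 : (1 / exp b) = exp (-b) := by rw [Real.exp_neg, one_div]
      rw [e2, ← Real.exp_nat_mul, mul_comm (B : ℝ) b] at e1
      exact e1
    have h2 := W.one_n hf N σ0 (n := n * (k - 1)) hb0 hη0 hA1 hcount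
      (fun v => (card_improving_le f v).trans hsum) k0 hk0 (hn1.trans hnd) M hM1 hbM
      (fun l hl hln σ => hren (n * (k - 1)) (hn0.trans hnd) _ f (improving f)
        (fun g hg => out_entropy m (fun i => hm ▸ hK i) f g hg)
        (fun w => (card_in_le f w).trans hsum) S W l hl hln σ)
    refine h2.trans ?_
    rw [← hC2, ← hp]
    have e0 : (((n * (k - 1) : ℕ) : ℝ) + 1) ≤ ((m : ℝ) + 1) * ((n : ℝ) + 1) := by
      rw [hk1]
      push_cast
      have : (0 : ℝ) ≤ n := Nat.cast_nonneg n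
      linarith
    have e1 : (((n * (k - 1) : ℕ) : ℝ) + 1) ^ p ≤ ((m : ℝ) + 1) ^ p * ((n : ℝ) + 1) ^ p := by
      rw [← mul_pow]
      exact pow_le_pow_left₀ (by positivity) e0 p
    have e2 : exp (2 * η * ((n * (k - 1) : ℕ) : ℝ)) = r ^ n := by
      rw [hr, ← Real.exp_nat_mul]
      congr 1
      rw [hk1]
      push_cast
      ring
    rw [e2]
    exact fin_calc hC20 (pow_nonneg hr0.le n) (zero_le_one.trans hA1)
      (pow_nonneg (by linarith) p) (zero_le_one.trans hε1) e1 (hC1' n) (le_max_left _ _)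
  · have h2 := W.occ_one_le N σ0
    have hk0 : (0 : ℝ) ≤ k := Nat.cast_nonneg k
    refine h2.trans ?_
    have h3 : ((Fintype.card (Vertex K) : ℕ) : ℝ) ≤ (k : ℝ) ^ (max n0 1) :=
      (card_vertex_le K hK).trans (pow_le_pow_right₀ (by rw [hkr]; linarith) hn.le)
    exact fin_calc2 h3 (le_max_right _ _) (pow_nonneg hk0 _) hε1 hA1

end Pool.Agent.H80.GR
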