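import Pool.Agent.H80.GR.Fin
set_option autoImplicit false

/-!
# Random-Edge and rules with memory
-/

namespace Pool.Agent.H80.GR

open Finset Real Filter Topology

variable {n : ℕ} {K : Fin n → ℕ}

/-- a rule with memory as a walk -/
noncomputable def ruleWalk (f : Vertex K → ℝ) (ρ : ℝ) (p : List (Vertex K) → Vertex K → ℝ)
    (h0 : ∀ h y, 0 ≤ p h y) (h1 : ∀ x h, ∑ y ∈ improving f x, p (x :: h) y ≤ 1)
    (hb : ∀ x h, ∀ y ∈ improving f x, p (x :: h) y * (improving f x).card ≤ ρ) :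
    Walk f (improving f) ρ (Vertex K × List (Vertex K)) where
  X σ := σ.1
  nxt σ y := (y, σ.1 :: σ.2)
  q σ y := p (σ.1 :: σ.2) y
  inc _ _ h := (mem_improving.1 h).2
  hX _ _ _ := rfl
  q0 _ _ := h0 _ _
  q1 σ := h1 σ.1 σ.2
  qb σ y hy := hb σ.1 σ.2 y hy

theorem prob_eq (f : Vertex K → ℝ) (ρ : ℝ) (p : List (Vertex K) → Vertex K → ℝ)
    (h0 : ∀ h y, 0 ≤ p h y) (h1 : ∀ x h, ∑ y ∈ improving f x, p (x :: h) y ≤ 1)
    (hb : ∀ x h, ∀ y ∈ improving f x, p (x :: h) y * (improving f x).card ≤ ρ) (T : ℕ)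
    (h : List (Vertex K)) (x : Vertex K) :
    prob f p T h x = ((ruleWalk f ρ p h0 h1 hb).P ^ T) 1 (x, h) := by
  induction T generalizing h x with
  | zero => simp [prob]
  | succ T ih =>
    rw [prob, pow_succ', Module.End.mul_apply, Walk.P_apply]
    refine sum_congr rfl fun i _ => ?_
    rw [ih]
    rfl

/-- the number `1 / k ^ (2 / ((k - 1) ρ))` -/
theorem base_eq {k : ℕ} (hk : 2 ≤ k) (ρ : ℝ) : exp (-(2 * log k / (((k : ℝ) - 1) * ρ))) =
    (k : ℝ) ^ (-(2 / (((k : ℝ) - 1) * ρ))) := by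
  have hk0 : (0 : ℝ) < k := by exact_mod_cast (by omega : 0 < k)
  rw [Real.rpow_def_of_pos hk0]
  congr 1
  ring

theorem rule_bound {k : ℕ} (hk : 2 ≤ k) {ρ ε : ℝ} (hρ : 1 ≤ ρ) (hε : 0 < ε) : ∃ C : ℝ, ∀ (n : ℕ)
    (K : Fin n → ℕ), (∀ i, K i ≤ k) → ∀ f : Vertex K → ℝ, Function.Injective f → OneMax f →
    ∀ p : List (Vertex K) → Vertex K → ℝ, (∀ h y, 0 ≤ p h y) →
      (∀ x h, ∑ y ∈ improving f x, p (x :: h) y ≤ 1) →
      (∀ x h, ∀ y ∈ improving f x, p (x :: h) y * (improving f x).card ≤ ρ) →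
      ∀ (x : Vertex K) (N : ℕ), ∑ t ∈ range N, prob f p (t + 1) [] x ≤
        C * (1 + ε) ^ n * ∏ i, ∑ j ∈ range (K i), ((k : ℝ) ^ (-(2 / (((k : ℝ) - 1) * ρ)))) ^ j := by
  obtain ⟨C, hC⟩ := main hk hρ hε
  refine ⟨C, fun n K hK f hf hm p h0 h1 hb x N => ?_⟩
  rw [← base_eq hk]
  refine le_trans ?_ (hC n K hK f hf hm _ (ruleWalk f ρ p h0 h1 hb) (N + 1) (x, []))
  unfold Walk.occ
  rw [sum_range_succ']
  have h2 : ∑ t ∈ range N, prob f p (t + 1) [] x =
      ∑ t ∈ range N, ((ruleWalk f ρ p h0 h1 hb).P ^ (t + 1)) 1 (x, []) :=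
    sum_congr rfl fun t _ => prob_eq f ρ p h0 h1 hb (t + 1) [] x
  rw [h2]
  simp

/-- Random-Edge as a walk -/
noncomputable def edgeWalk (f : Vertex K → ℝ) : Walk f (improving f) 1 (Vertex K) where
  X x := x
  nxt _ y := y
  q x _ := 1 / (improving f x).card
  inc _ _ h := (mem_improving.1 h).2
  hX _ _ _ := rfl
  q0 _ _ := by positivity
  q1 x := by
    rw [sum_const, nsmul_eq_mul]
    rcases Nat.eq_zero_or_pos (improving f x).card with h | h
    · rw [h]; simp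
    · have : ((improving f x).card : ℝ) ≠ 0 := by exact_mod_cast h.ne'
      rw [mul_one_div_cancel this]
  qb x i hi := by
    have : ((improving f x).card : ℝ) ≠ 0 := by
      exact_mod_cast (card_pos.2 ⟨i, hi⟩).ne'
    rw [one_div_mul_cancel this]

theorem randomEdge_eq {f : Vertex K → ℝ} {T : Vertex K → ℝ} (hT : RandomEdge f T) :
    T = (edgeWalk f).P 1 + (edgeWalk f).P T := by
  funext x
  rw [Pi.add_apply, Walk.P_apply, Walk.P_apply]
  show T x = ∑ i ∈ improving f x, 1 / ((improving f x).card : ℝ) * 1 +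
    ∑ i ∈ improving f x, 1 / ((improving f x).card : ℝ) * T i
  rcases (improving f x).eq_empty_or_nonempty with h | h
  · rw [(hT x).1 h, h]; simp
  · rw [(hT x).2 h, ← mul_sum, ← mul_sum]
    have : ((improving f x).card : ℝ) ≠ 0 := by exact_mod_cast (card_pos.2 h).ne'
    rw [sum_const, nsmul_eq_mul]
    field_simp

theorem randomEdge_iter {f : Vertex K → ℝ} {T : Vertex K → ℝ} (hT : RandomEdge f T)
    (N : ℕ) (x : Vertex K) :
    T x = ∑ t ∈ range N, ((edgeWalk f).P ^ (t + 1)) 1 x + ((edgeWalk f).P ^ N) T x := by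
  induction N with
  | zero => simp
  | succ N ih =>
    have h1 : ((edgeWalk f).P ^ N) T x = ((edgeWalk f).P ^ (N + 1)) 1 x +
        ((edgeWalk f).P ^ (N + 1)) T x := by
      conv_lhs => rw [randomEdge_eq hT]
      rw [map_add, Pi.add_apply, pow_succ, Module.End.mul_apply, Module.End.mul_apply]
    rw [sum_range_succ, ih]
    linarith

/-- a bound for the time the walk spends before it stops is a bound for the expectation -/
theorem edge_limit (f : Vertex K → ℝ) {T : Vertex K → ℝ} (hT : RandomEdge f T) {Z : ℝ}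
    (x : Vertex K) (hZ : ∀ N, (edgeWalk f).occ N x 1 ≤ Z) : T x ≤ Z := by
  set W := edgeWalk f with hW
  have hsum : Summable fun t => (W.P ^ t) 1 x := by
    apply summable_of_sum_range_le (c := Z)
    · intro t; exact W.Pj_nonneg t (fun _ => zero_le_one) x
    · intro N; exact hZ N
  have hlim := hsum.tendsto_atTop_zero
  obtain ⟨B, hB⟩ : ∃ B : ℝ, ∀ y, T y ≤ B := by
    refine ⟨∑ y, |T y|, fun y => (le_abs_self _).trans ?_⟩
    exact single_le_sum (f := fun y => |T y|) (fun _ _ => abs_nonneg _) (mem_univ y)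
  have h2 : ∀ N, T x ≤ Z + B * (W.P ^ N) 1 x := by
    intro N
    rw [randomEdge_iter hT N x]
    apply add_le_add
    · refine le_trans ?_ (hZ (N + 1))
      unfold Walk.occ
      rw [sum_range_succ']
      simp [hW]
    · have h3 : T ≤ B • (1 : Vertex K → ℝ) := by
        intro y; simpa using hB y
      have h4 := W.Pj_mono N h3 x
      rw [map_smul] at h4
      simpa using h4
  have h3 : Tendsto (fun N => Z + B * (W.P ^ N) 1 x) atTop
      (𝓝 (Z + B * 0)) := tendsto_const_nhds.add (hlim.const_mul B)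
  rw [mul_zero, add_zero] at h3
  exact ge_of_tendsto' h3 h2

theorem edge_bound {k : ℕ} (hk : 2 ≤ k) {ε : ℝ} (hε : 0 < ε) : ∃ C : ℝ, ∀ (n : ℕ)
    (K : Fin n → ℕ), (∀ i, K i ≤ k) → ∀ f : Vertex K → ℝ, Function.Injective f → OneMax f →
    ∀ T : Vertex K → ℝ, RandomEdge f T → ∀ x, T x ≤
      C * (1 + ε) ^ n * ∏ i, ∑ j ∈ range (K i), ((k : ℝ) ^ (-(2 / ((k : ℝ) - 1)))) ^ j := by
  obtain ⟨C, hC⟩ := main hk (le_refl (1 : ℝ)) hε
  refine ⟨C, fun n K hK f hf hm T hT x => ?_⟩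
  have h := base_eq hk 1
  rw [mul_one] at h
  rw [← h]
  refine edge_limit f hT x fun N => ?_
  have h2 := hC n K hK f hf hm _ (edgeWalk f) N x
  rw [mul_one] at h2
  exact h2

end Pool.Agent.H80.GR
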