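import Pool.Agent.H80.GR.Class
import Pool.Agent.H80.RE.Asym
set_option autoImplicit false

/-!
# The bound for the number of steps
-/

namespace Pool.Agent.H80.GR

open Finset Real Pool.Agent.H80.RE

theorem c0_le {n : ℕ} (hn : 1 ≤ n) : c0 (n ^ 3) (1 + 1 / (n : ℝ)) ≤ 1 / 2 ^ (n ^ 2 - 1) := by
  have hn0 : (0 : ℝ) < n := by exact_mod_cast hn
  have hK : 0 < n ^ 3 := by positivity
  have hlam : (0 : ℝ) < 1 + 1 / n := by positivity
  have h1 : (2 : ℝ) ≤ (1 + 1 / (n : ℝ)) ^ n := by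
    have := one_add_mul_le_pow (a := 1 / (n : ℝ)) (by
      have : (0 : ℝ) ≤ 1 / n := by positivity
      linarith) n
    have e : 1 + (n : ℝ) * (1 / n) = 2 := by field_simp; norm_num
    linarith
  have h2 : (2 : ℝ) ^ (n ^ 2 - 1) ≤ (1 + 1 / (n : ℝ)) ^ (n ^ 3 - 1) := by
    calc (2 : ℝ) ^ (n ^ 2 - 1) ≤ ((1 + 1 / (n : ℝ)) ^ n) ^ (n ^ 2 - 1) :=
          pow_le_pow_left₀ (by norm_num) h1 _
      _ = (1 + 1 / (n : ℝ)) ^ (n * (n ^ 2 - 1)) := by rw [pow_mul]
      _ ≤ (1 + 1 / (n : ℝ)) ^ (n ^ 3 - 1) := by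
        apply pow_le_pow_right₀
        · have : (0 : ℝ) ≤ 1 / n := by positivity
          linarith
        · rw [Nat.mul_sub, mul_one]
          have e : n * n ^ 2 = n ^ 3 := by ring
          rw [e]
          omega
  have h3 : (1 + 1 / (n : ℝ)) ^ (n ^ 3 - 1) ≤ ∑ j ∈ range (n ^ 3), (1 + 1 / (n : ℝ)) ^ j :=
    single_le_sum (f := fun j => (1 + 1 / (n : ℝ)) ^ j) (fun j _ => (pow_pos hlam j).le)
      (mem_range.2 (by omega))
  unfold c0
  rw [← one_div]
  apply one_div_le_one_div_of_le (by positivity)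
  linarith

theorem c0_small {ε : ℝ} (hε : 0 < ε) : ∃ n0 : ℕ, ∀ n : ℕ, n0 ≤ n →
    c0 (n ^ 3) (1 + 1 / (n : ℝ)) / ε ≤ exp (-(n : ℝ)) := by
  refine ⟨max 4 ⌈1 / ε⌉₊, fun n hn => ?_⟩
  have h4 : 4 ≤ n := (le_max_left _ _).trans hn
  have h5 : 1 / ε ≤ n := by
    have := (le_max_right 4 ⌈1 / ε⌉₊).trans hn
    exact (Nat.le_ceil _).trans (by exact_mod_cast this)
  have h1 := c0_le (n := n) (by omega)
  rw [div_le_iff₀ hε]
  refine h1.trans ?_
  rw [Real.exp_neg, div_le_iff₀ (by positivity)]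
  have h6 : exp (n : ℝ) ≤ 4 ^ n := by
    have e1 : exp (n : ℝ) = exp 1 ^ n := by rw [← Real.exp_nat_mul]; simp
    rw [e1]
    apply pow_le_pow_left₀ (exp_pos _).le
    have := Real.exp_one_lt_d9
    linarith
  have h7 : (4 : ℝ) ^ n * n ≤ 2 ^ (n ^ 2 - 1) := by
    have e1 : (n : ℝ) ≤ 2 ^ n := by exact_mod_cast (Nat.lt_two_pow_self (n := n)).le
    calc (4 : ℝ) ^ n * n ≤ 4 ^ n * 2 ^ n := mul_le_mul_of_nonneg_left e1 (by positivity)
      _ = 2 ^ (3 * n) := by
        rw [← mul_pow, pow_mul]; norm_num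
      _ ≤ 2 ^ (n ^ 2 - 1) := by
        apply pow_le_pow_right₀ (by norm_num)
        have : 3 * n + 1 ≤ n ^ 2 := by nlinarith
        omega
  have h8 : 1 ≤ ε * n := by
    rw [div_le_iff₀ hε] at h5; linarith
  have h9 : (0 : ℝ) < 4 ^ n := by positivity
  have h10 : exp (n : ℝ) ≤ ε * 2 ^ (n ^ 2 - 1) := by
    calc exp (n : ℝ) ≤ 4 ^ n * 1 := by linarith
      _ ≤ 4 ^ n * (ε * n) := mul_le_mul_of_nonneg_left h8 h9.le
      _ = ε * (4 ^ n * n) := by ring
      _ ≤ _ := mul_le_mul_of_nonneg_left h7 hε.le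
  have h11 := exp_pos (n : ℝ)
  calc (1 : ℝ) = (exp (n : ℝ))⁻¹ * exp (n : ℝ) := by rw [inv_mul_cancel₀ h11.ne']
    _ ≤ (exp (n : ℝ))⁻¹ * (ε * 2 ^ (n ^ 2 - 1)) := mul_le_mul_of_nonneg_left h10 (by positivity)
    _ = _ := by ring

theorem ren {ρ : ℝ} (hρ : 1 ≤ ρ) {η : ℝ} (hη : 0 < η) {κ : ℝ} (hκ : 0 < κ) (hκ1 : κ ≤ 1) :
    ∃ k0 : ℕ, 1 ≤ k0 ∧ ∃ n0 : ℕ, ∀ n : ℕ, n0 ≤ n → ∀ (V : Type) [Fintype V] [DecidableEq V]
      (f : V → ℝ) (out : V → Finset V),
      (∀ g : V → ℝ, (∀ v, 0 ≤ g v) → κ * ∑ v, ∑ w ∈ out v, e2 (g v) (g w) ≤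
        ∑ v, negMulLog (g v) - negMulLog (∑ v, g v)) →
      (∀ w, (univ.filter fun v => w ∈ out v).card ≤ n) → ∀ (S : Type) (W : Walk f out ρ S)
      (l : ℕ), 0 < l → l ≤ n → ∀ σ : S,
      ∑ v, W.nu l (n ^ 3) (1 + 1 / (n : ℝ)) σ v ^ (1 + 1 / (k0 : ℝ)) ≤
        exp (-(1 / (k0 : ℝ)) * (κ * (2 * log 2 / ρ) * l - η * n)) := by
  obtain ⟨k0, hk9, τ, hτ, hsτ, hA1, hA2⟩ := params (η := η / 4) (by positivity)
  have hl2 : log 2 ≤ 1 := by
    have := Real.log_two_lt_d9
    linarith
  have hl20 : 0 < log 2 := Real.log_pos (by norm_num)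
  have hk : (9 : ℝ) ≤ k0 := by exact_mod_cast hk9
  set s : ℝ := 1 / (k0 : ℝ) with hs
  have hs0 : 0 < s := by positivity
  have hs9 : s ≤ 1 / 9 := by
    rw [hs]; apply one_div_le_one_div_of_le (by norm_num) hk
  set A2 := (1 + s) * log 2 / s with hA2d
  have hA20 : 0 < A2 := by positivity
  set ε := min (η / (4 * A2)) 1 with hεd
  have hε : 0 < ε := lt_min (by positivity) one_pos
  have hε1 : ε ≤ 1 := min_le_right _ _
  have hεη : A2 * ε ≤ η / 4 := by
    have : ε ≤ η / (4 * A2) := min_le_left _ _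
    calc A2 * ε ≤ A2 * (η / (4 * A2)) := mul_le_mul_of_nonneg_left this hA20.le
      _ = η / 4 := by field_simp
  obtain ⟨n1, hn1⟩ := c0_small hε
  refine ⟨k0, by omega, max (max n1 1) ⌈4 * A2 / η⌉₊, fun n hn V _ _ f out hent hdeg S W l hl hln σ => ?_⟩
  have hna : n1 ≤ n := (le_max_left _ _).trans ((le_max_left _ _).trans hn)
  have hnb : 1 ≤ n := (le_max_right _ _).trans ((le_max_left _ _).trans hn)
  have hnc : 4 * A2 / η ≤ n := by
    have := (le_max_right (max n1 1) ⌈4 * A2 / η⌉₊).trans hn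
    exact (Nat.le_ceil _).trans (by exact_mod_cast this)
  have hn0 : (0 : ℝ) < n := by exact_mod_cast hnb
  have hlr : (0 : ℝ) < l := by exact_mod_cast hl
  have hlnr : (l : ℝ) ≤ n := by exact_mod_cast hln
  have hlam : (0 : ℝ) < 1 + 1 / n := by positivity
  have h1 := W.nu_spread hκ hent hdeg (l := l) (K := n ^ 3) (lam := 1 + 1 / (n : ℝ)) hs0 hs9 hτ hsτ hl
    (by linarith) hlam (by positivity) hε σ
  refine h1.trans (max_le ?_ ?_)
  · refine (hn1 n hna).trans (Real.exp_le_exp.2 ?_)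
    have e1 : 2 * log 2 / ρ * l ≤ 2 * n := by
      have e2 : 2 * log 2 / ρ ≤ 2 := by
        rw [div_le_iff₀ (by linarith)]; nlinarith
      calc 2 * log 2 / ρ * l ≤ 2 * l := mul_le_mul_of_nonneg_right e2 hlr.le
        _ ≤ 2 * n := by linarith
    have e0 : κ * (2 * log 2 / ρ * l) ≤ 1 * (2 * log 2 / ρ * l) :=
      mul_le_mul_of_nonneg_right hκ1 (by positivity)
    have e3 : κ * (2 * log 2 / ρ) * l - η * n ≤ 2 * n := by
      have : 0 ≤ η * n := by positivity
      linarith
    have e4 : s * (κ * (2 * log 2 / ρ) * l - η * n) ≤ s * (2 * n) :=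
      mul_le_mul_of_nonneg_left e3 hs0.le
    nlinarith
  · apply Real.exp_le_exp.2
    rw [neg_mul, neg_mul]
    apply neg_le_neg
    suffices hx : s * (2 * log 2 / ρ * l - η * n) ≤ expo n l ρ (1 + 1 / (n : ℝ)) s τ ε by
      have hx2 := mul_le_mul_of_nonneg_left hx hκ.le
      refine le_trans ?_ hx2
      have hx3 : 0 ≤ (1 - κ) * (s * (η * n)) := mul_nonneg (by linarith) (by positivity)
      linarith
    unfold expo
    apply mul_le_mul_of_nonneg_left _ hs0.le
    have e1 : A2 * (1 - (1 - ε) / (1 + 1 / (n : ℝ))) ≤ η / 2 := by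
      have e2 : 1 - (1 - ε) / (1 + 1 / (n : ℝ)) ≤ ε + 1 / n := by
        have e3 : 1 - 1 / (n : ℝ) ≤ 1 / (1 + 1 / (n : ℝ)) := by
          rw [le_div_iff₀ hlam]
          have : 0 ≤ 1 / (n : ℝ) * (1 / n) := by positivity
          nlinarith
        have e4 : (1 - ε) * (1 - 1 / (n : ℝ)) ≤ (1 - ε) * (1 / (1 + 1 / (n : ℝ))) :=
          mul_le_mul_of_nonneg_left e3 (by linarith)
        have e5 : (1 - ε) / (1 + 1 / (n : ℝ)) = (1 - ε) * (1 / (1 + 1 / (n : ℝ))) := by
          rw [mul_one_div]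
        have e6 : 0 ≤ ε * (1 / (n : ℝ)) := by positivity
        rw [e5]
        nlinarith
      have e7 : A2 * (1 / (n : ℝ)) ≤ η / 4 := by
        rw [mul_one_div, div_le_iff₀ hn0]
        rw [div_le_iff₀ hη] at hnc
        linarith
      calc A2 * (1 - (1 - ε) / (1 + 1 / (n : ℝ))) ≤ A2 * (ε + 1 / n) :=
            mul_le_mul_of_nonneg_left e2 hA20.le
        _ = A2 * ε + A2 * (1 / n) := by ring
        _ ≤ η / 2 := by linarith
    have e8 : (l : ℝ) / ρ ≤ n := by
      rw [div_le_iff₀ (by linarith)]; nlinarith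
    have e9 : 0 ≤ (l : ℝ) / ρ := by positivity
    have e10 : (l : ℝ) / ρ * (3 * η / 4) ≤ n * (3 * η / 4) :=
      mul_le_mul_of_nonneg_right e8 (by positivity)
    have e11 : (l : ℝ) / ρ * (2 * log 2 - 3 * η / 4) ≤
        (l : ℝ) / ρ * (2 * log 2 - (1 + s) * log 2 * s * τ ^ 2 -
          A2 * (1 - (1 - ε) / (1 + 1 / (n : ℝ)))) := by
      apply mul_le_mul_of_nonneg_left _ e9
      linarith
    have e12 : A2 * exp (-τ) * n ≤ η / 4 * n := mul_le_mul_of_nonneg_right hA2 hn0.le
    have e13 : 2 * log 2 / ρ * l = (l : ℝ) / ρ * (2 * log 2) := by ring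
    rw [e13]
    have e14 : (l : ℝ) / ρ * (2 * log 2 - 3 * η / 4) =
        (l : ℝ) / ρ * (2 * log 2) - (l : ℝ) / ρ * (3 * η / 4) := by ring
    linarith

theorem Walk.occ_one_le {V : Type} [Fintype V] [DecidableEq V] {f : V → ℝ} {out : V → Finset V}
    {ρ : ℝ} {S : Type} (W : Walk f out ρ S)
    (N : ℕ) (σ0 : S) : W.occ N σ0 1 ≤ Fintype.card V := by
  have h := W.occ_indL N σ0 univ
  have e : W.indL univ = 1 := W.sum_ind
  rw [e] at h
  simpa using h

/-- the boundaries of the classes -/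
theorem div_bound (n M c : ℕ) (hM : 0 < M) :
    (((c + 1) * (n + 1) / M : ℕ) : ℝ) ≤ ((c * (n + 1) / M : ℕ) : ℝ) + 1 + (n + 1) / M := by
  have hMr : (0 : ℝ) < M := by exact_mod_cast hM
  have h1 : (((c + 1) * (n + 1) / M : ℕ) : ℝ) ≤ (((c + 1) * (n + 1) : ℕ) : ℝ) / M := Nat.cast_div_le
  have h2 : ((c * (n + 1) : ℕ) : ℝ) / M < ((c * (n + 1) / M : ℕ) : ℝ) + 1 := by
    rw [div_lt_iff₀ hMr]
    have := Nat.lt_mul_div_succ (c * (n + 1)) hM
    have h3 : ((c * (n + 1) : ℕ) : ℝ) < ((M * (c * (n + 1) / M + 1) : ℕ) : ℝ) := by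
      exact_mod_cast this
    push_cast at h3 ⊢
    linarith
  have h3 : (((c + 1) * (n + 1) : ℕ) : ℝ) / M = ((c * (n + 1) : ℕ) : ℝ) / M + (n + 1) / M := by
    push_cast
    ring
  linarith

/-- the bound for one `n` -/
theorem Walk.one_n {V : Type} [Fintype V] [DecidableEq V] {f : V → ℝ} {out : V → Finset V} {n : ℕ}
    (hf : Function.Injective f) {ρ : ℝ} {S : Type} (W : Walk f out ρ S) (N : ℕ) (σ0 : S)
    {b η 𝒜 : ℝ} (hb : 0 < b) (hη : 0 < η)
    (h𝒜 : 1 ≤ 𝒜) (hcount : ∀ B : ℕ, ((low out B).card : ℝ) ≤ exp (b * B) * 𝒜)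
    (hmax : ∀ v, (out v).card ≤ n)
    (k0 : ℕ) (hk0 : 1 ≤ k0) (hn : 1 ≤ n) (M : ℕ) (hM : 1 ≤ M) (hbM : b / M ≤ η)
    (hren : ∀ l : ℕ, 0 < l → l ≤ n → ∀ σ : S,
      ∑ v, W.nu l (n ^ 3) (1 + 1 / (n : ℝ)) σ v ^ (1 + 1 / (k0 : ℝ)) ≤
        exp (-(1 / (k0 : ℝ)) * (b * l - η * n))) :
    W.occ N σ0 1 ≤ 2 * M * (2 + 8 * M * (4 * M) ^ k0 * exp (η + b)) *
      (((n : ℝ) + 1) ^ (3 * M + (6 + 3 * M + 3 * M * k0)) * (exp (2 * η * n) * 𝒜)) := by
  classical
  have hn0 : (1 : ℝ) ≤ n := by exact_mod_cast hn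
  have hMr : (1 : ℝ) ≤ M := by exact_mod_cast hM
  have hk0r : (1 : ℝ) ≤ k0 := by exact_mod_cast hk0
  set x : ℝ := (n : ℝ) + 1 with hx
  have hx1 : 1 ≤ x := by linarith
  set K : ℕ := n ^ 3 with hK
  have hKpos : 0 < K := by positivity
  have hKr1 : (1 : ℝ) ≤ K := by exact_mod_cast hKpos
  have hKx : (K : ℝ) ≤ x ^ 3 := by
    rw [hK]; push_cast
    exact pow_le_pow_left₀ (by linarith) (by linarith) 3
  set D : ℝ := (K : ℝ) + 1 with hD
  have hDx : D ≤ x ^ 3 := by
    rw [hD, hK, hx]; push_cast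
    nlinarith
  have hD1 : 1 ≤ D := by linarith
  set δ : ℝ := 1 / (2 * M * D ^ M) with hδ
  have hDM : 1 ≤ D ^ M := one_le_pow₀ hD1
  have hδ0 : 0 < δ := by positivity
  have hδ1 : δ ≤ 1 := by
    rw [hδ, div_le_one (by positivity)]; nlinarith
  have hδi : 1 / δ ≤ 2 * M * x ^ (3 * M) := by
    rw [hδ, one_div_one_div]
    have : D ^ M ≤ x ^ (3 * M) := by
      rw [pow_mul]; exact pow_le_pow_left₀ (by linarith) hDx M
    exact mul_le_mul_of_nonneg_left this (by positivity)
  set r : ℝ := exp (2 * η * n) * 𝒜 with hr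
  have hr1 : 1 ≤ r := by
    have : 1 ≤ exp (2 * η * n) := Real.one_le_exp (by positivity)
    nlinarith
  set Y : ℝ := exp (η + b) * r with hY
  have hY1 : 1 ≤ Y := by
    have h2 : 1 ≤ exp (η + b) := Real.one_le_exp (by positivity)
    nlinarith
  set T := W.occ N σ0 1 with hT
  have hT0 : 0 ≤ T := W.occ_nonneg N σ0 (fun _ => zero_le_one)
  set Z : ℝ := 4 * K / δ * (2 / δ) ^ k0 * Y with hZ
  have hZ0 : 0 ≤ Z := by positivity
  have hlam : (0 : ℝ) < 1 + 1 / n := by positivity
  -- the recursion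
  have hrec : T ≤ M * D ^ M * (K * K + K + δ * T + Z) := by
    have h := recur (a := fun c => W.occ N σ0 (W.indL (low out (c * (n + 1) / M)))) (D := D)
      (E := K * K + K + δ * T + Z) hD1 (by positivity) (by
        have : low out (0 * (n + 1) / M) = ∅ := by
          simp [low]
        show W.occ N σ0 (W.indL (low out (0 * (n + 1) / M))) = 0
        rw [this]
        simp [Walk.indL, Walk.occ]) M (by
        intro c hc
        show W.occ N σ0 (W.indL (low out ((c + 1) * (n + 1) / M))) ≤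
          D * W.occ N σ0 (W.indL (low out (c * (n + 1) / M))) + (K * K + K + δ * T + Z)
        set l := c * (n + 1) / M with hl
        set l' := (c + 1) * (n + 1) / M with hl'
        have hll' : l ≤ l' := Nat.div_le_div_right (Nat.mul_le_mul_right _ (Nat.le_succ c))
        have hln : l ≤ n := by
          have : l < n + 1 := by
            rw [hl, Nat.div_lt_iff_lt_mul (by omega), mul_comm]
            exact Nat.mul_lt_mul_of_pos_left hc (by omega)
          omega
        set L := (low out l').filter (fun v => l ≤ (out v).card) with hL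
        have hsplit : W.indL (low out l') = W.indL (low out l) + W.indL L := by
          funext σ
          rw [Pi.add_apply, W.indL_apply, W.indL_apply, W.indL_apply]
          simp only [hL, low, mem_filter, mem_univ, true_and]
          by_cases ha : (out (W.X σ)).card < l
          · have hb' : (out (W.X σ)).card < l' := by omega
            simp [ha, hb']
          · by_cases hb' : (out (W.X σ)).card < l'
            · simp [ha, hb', not_lt.1 ha]
            · simp [ha, hb']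
        rw [hsplit, W.occ_add]
        have hcard : (L.card : ℝ) ≤ exp (b * l + b + η * (n + 1)) * 𝒜 := by
          have e1 : (L.card : ℝ) ≤ (low out l').card := by
            exact_mod_cast card_le_card (filter_subset _ _)
          have e2 := hcount l'
          refine e1.trans (e2.trans ?_)
          apply mul_le_mul_of_nonneg_right _ (by positivity)
          apply Real.exp_le_exp.2
          have e4 := div_bound n M c (by omega)
          rw [← hl, ← hl'] at e4
          have e5 : (l' : ℝ) * b ≤ ((l : ℝ) + 1 + (n + 1) / M) * b :=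
            mul_le_mul_of_nonneg_right e4 hb.le
          have e6 : ((n : ℝ) + 1) / M * b = (b / M) * (n + 1) := by ring
          have e7 : (b / M) * ((n : ℝ) + 1) ≤ η * (n + 1) :=
            mul_le_mul_of_nonneg_right hbM (by positivity)
          nlinarith
        have hocc0 : 0 ≤ W.occ N σ0 (W.indL (low out l)) := W.occ_nonneg N σ0 (W.indL_nonneg _)
        rcases Nat.eq_zero_or_pos l with hl0 | hl0
        · have e1 := W.occ_indL N σ0 L
          rw [hl0] at hcard
          have e2 : exp (b * ((0 : ℕ) : ℝ) + b + η * (n + 1)) * 𝒜 ≤ Y := by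
            rw [hY, hr, ← mul_assoc, ← Real.exp_add]
            apply mul_le_mul_of_nonneg_right _ (by positivity)
            apply Real.exp_le_exp.2
            push_cast
            have : 0 ≤ η * n := by positivity
            linarith
          have e3 : Y ≤ Z := by
            rw [hZ]
            have e4 : 1 ≤ 4 * K / δ := by
              rw [le_div_iff₀ hδ0]; nlinarith
            have e5 : 1 ≤ (2 / δ) ^ k0 := by
              apply one_le_pow₀
              rw [le_div_iff₀ hδ0]; linarith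
            have e6 : 1 ≤ 4 * K / δ * (2 / δ) ^ k0 := by nlinarith
            nlinarith
          have e4 : 0 ≤ δ * T := by positivity
          have e5 : W.occ N σ0 (W.indL (low out l)) ≤ D * W.occ N σ0 (W.indL (low out l)) := by
            nlinarith
          nlinarith
        · set Q := exp (-(1 / (k0 : ℝ)) * (b * l - η * n)) with hQ
          have e1 := W.class_step hf (l := l) (K := K) hKpos (lam := 1 + 1 / (n : ℝ))
            (s := 1 / (k0 : ℝ)) (Q := Q) (δ := δ) hlam (by positivity) (exp_pos _) hδ0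
            (hren l hl0 hln) L (fun v hv => (mem_filter.1 hv).2) N σ0
          have e2 : (2 * Q / δ) ^ (1 / (1 / (k0 : ℝ))) = (2 / δ) ^ k0 * exp (-(b * l - η * n)) := by
            have e3 : 2 * Q / δ = (2 / δ) * Q := by ring
            rw [one_div_one_div, Real.rpow_natCast, e3, mul_pow]
            congr 1
            rw [hQ, ← Real.exp_nat_mul]
            congr 1
            field_simp
          rw [e2] at e1
          have e4 : 4 * K / δ * ((2 / δ) ^ k0 * exp (-(b * l - η * n))) * L.card ≤ Z := by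
            have e5 : exp (-(b * l - η * n)) * L.card ≤ Y := by
              have e6 := mul_le_mul_of_nonneg_left hcard (exp_pos (-(b * l - η * n))).le
              refine e6.trans ?_
              rw [← mul_assoc, ← Real.exp_add, hY, hr, ← mul_assoc,
                ← Real.exp_add]
              apply mul_le_mul_of_nonneg_right _ (by positivity)
              apply Real.exp_le_exp.2
              linarith
            calc 4 * K / δ * ((2 / δ) ^ k0 * exp (-(b * l - η * n))) * L.card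
                = 4 * K / δ * (2 / δ) ^ k0 * (exp (-(b * l - η * n)) * L.card) := by ring
              _ ≤ 4 * K / δ * (2 / δ) ^ k0 * Y := mul_le_mul_of_nonneg_left e5 (by positivity)
          linarith)
    have e : W.occ N σ0 (W.indL (low out (M * (n + 1) / M))) = T := by
      have e1 : low out (M * (n + 1) / M) = univ := by
        rw [Nat.mul_div_cancel_left _ (by omega)]
        ext v
        simp only [low, mem_filter, mem_univ, true_and, iff_true]
        have := hmax v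
        omega
      rw [e1]
      have e2 : W.indL univ = 1 := W.sum_ind
      rw [e2]
    calc T = W.occ N σ0 (W.indL (low out (M * (n + 1) / M))) := e.symm
      _ ≤ _ := h
  -- solving for T
  have hhalf : M * D ^ M * (δ * T) = T / 2 := by
    rw [hδ]; field_simp
  have h2 : T ≤ 2 * M * D ^ M * (K * K + K + Z) := by nlinarith
  refine h2.trans ?_
  have hx6 : (K : ℝ) * K + K ≤ 2 * x ^ 6 := by
    have e1 : (K : ℝ) * K ≤ x ^ 3 * x ^ 3 := mul_le_mul hKx hKx (by positivity) (by positivity)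
    have e2 : x ^ 3 ≤ x ^ 3 * x ^ 3 := by
      have : 1 ≤ x ^ 3 := one_le_pow₀ hx1
      nlinarith
    have e3 : x ^ 3 * x ^ 3 = x ^ 6 := by ring
    linarith
  have hZx : Z ≤ 8 * M * (4 * M) ^ k0 * exp (η + b) * (x ^ (3 + 3 * M + 3 * M * k0) * r) := by
    rw [hZ]
    have e1 : 4 * K / δ ≤ 4 * x ^ 3 * (2 * M * x ^ (3 * M)) := by
      have : 4 * (K : ℝ) / δ = 4 * K * (1 / δ) := by ring
      rw [this]
      exact mul_le_mul (by linarith) hδi (by positivity) (by positivity)
    have e2 : (2 / δ) ^ k0 ≤ (4 * M * x ^ (3 * M)) ^ k0 := by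
      apply pow_le_pow_left₀ (by positivity)
      have : 2 / δ = 2 * (1 / δ) := by ring
      rw [this]
      linarith
    calc 4 * K / δ * (2 / δ) ^ k0 * Y ≤
        (4 * x ^ 3 * (2 * M * x ^ (3 * M))) * (4 * M * x ^ (3 * M)) ^ k0 * Y := by
          apply mul_le_mul_of_nonneg_right _ (by positivity)
          exact mul_le_mul e1 e2 (by positivity) (by positivity)
      _ = _ := by
        rw [hY, mul_pow, ← pow_mul, pow_add, pow_add]
        ring
  have hsum : (K : ℝ) * K + K + Z ≤ (2 + 8 * M * (4 * M) ^ k0 * exp (η + b)) *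
      (x ^ (6 + 3 * M + 3 * M * k0) * r) := by
    have hrn : 1 ≤ r := hr1
    have e1 : x ^ 6 ≤ x ^ (6 + 3 * M + 3 * M * k0) := pow_le_pow_right₀ hx1 (by omega)
    have e2 : x ^ (3 + 3 * M + 3 * M * k0) ≤ x ^ (6 + 3 * M + 3 * M * k0) :=
      pow_le_pow_right₀ hx1 (by omega)
    have e3 : x ^ 6 ≤ x ^ (6 + 3 * M + 3 * M * k0) * r := by
      have : 0 < x ^ (6 + 3 * M + 3 * M * k0) := by positivity
      nlinarith
    have e4 : x ^ (3 + 3 * M + 3 * M * k0) * r ≤ x ^ (6 + 3 * M + 3 * M * k0) * r :=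
      mul_le_mul_of_nonneg_right e2 (by positivity)
    have e5 := mul_le_mul_of_nonneg_left e4
      (by positivity : 0 ≤ 8 * M * (4 * M) ^ k0 * exp (η + b))
    rw [add_mul]
    linarith
  calc 2 * M * D ^ M * (K * K + K + Z) ≤ 2 * M * x ^ (3 * M) *
        ((2 + 8 * M * (4 * M) ^ k0 * exp (η + b)) * (x ^ (6 + 3 * M + 3 * M * k0) * r)) := by
        apply mul_le_mul _ hsum (by positivity) (by positivity)
        apply mul_le_mul_of_nonneg_left _ (by positivity)
        rw [pow_mul]; exact pow_le_pow_left₀ (by linarith) hDx M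
    _ = _ := by
      rw [pow_add x (3 * M)]
      ring


end Pool.Agent.H80.GR
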