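import Pool.Agent.H80.RE.Scal
set_option autoImplicit false

/-!
# Another two-point inequality
-/

namespace Pool.Agent.H80.GR

open Finset Real Pool.Agent.H80.RE

theorem e2_smul (c a b : ℝ) : e2 (c * a) (c * b) = c * e2 a b := by
  unfold e2
  rw [← mul_add, negMulLog_mul c a, negMulLog_mul c b, negMulLog_mul c (a + b)]
  ring

theorem e2_zero_left (b : ℝ) : e2 0 b = 0 := by simp [e2]

theorem e2_zero_right (a : ℝ) : e2 a 0 = 0 := by simp [e2]

/-- the entropy of a point of the segment -/
theorem e2_low {t : ℝ} (h0 : 0 < t) (h1 : t ≤ 1) : 4 * t * log 2 ≤ e2 1 t * (1 + t) := by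
  have h2 := e2_one_ge (r := 1 / t) (by positivity)
  have h3 : e2 1 t = t * e2 1 (1 / t) := by
    rw [← e2_smul, mul_one, mul_one_div_cancel h0.ne', e2_comm]
  have h4 := Real.le_log_one_add_of_nonneg (x := 1 / t - 1) (by
    rw [sub_nonneg, le_div_iff₀ h0]; linarith)
  have h5 : 1 + (1 / t - 1) = 1 / t := by ring
  rw [h5] at h4
  have h6 : 2 * (1 / t - 1) / (1 / t - 1 + 2) = 4 / (1 + t) - 2 := by
    have e1 : 1 / t - 1 + 2 = (1 + t) / t := by field_simp; ring
    have e2 : 2 * (1 / t - 1) = 2 * (1 - t) / t := by field_simp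
    have h1t : 1 + t ≠ 0 := by positivity
    rw [e1, e2, div_div_div_cancel_right₀ h0.ne', div_sub' h1t]
    congr 1
    ring
  rw [h6] at h4
  have hl : 0 < log 2 := Real.log_pos (by norm_num)
  have h7 : 4 / (1 + t) ≤ 2 + log (1 / t) := by linarith
  rw [div_le_iff₀ (by positivity)] at h7
  rw [h3]
  have h8 : t * (log 2 * (2 + log (1 / t))) * (1 + t) ≤ t * e2 1 (1 / t) * (1 + t) :=
    mul_le_mul_of_nonneg_right (mul_le_mul_of_nonneg_left h2 h0.le) (by positivity)
  have h9 : t * log 2 * 4 ≤ t * log 2 * ((2 + log (1 / t)) * (1 + t)) :=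
    mul_le_mul_of_nonneg_left h7 (by positivity)
  linarith

/-- the difference of both sides -/
noncomputable def D (t x : ℝ) : ℝ := log 2 * (e2 t x + e2 (t * x) 1) - e2 1 t * e2 1 x

/-- its derivative -/
noncomputable def D1 (t x : ℝ) : ℝ :=
  log 2 * ((log (t + x) - log x) + t * (log (1 + t * x) - log (t * x))) -
    e2 1 t * (log (1 + x) - log x)

/-- the sign of the second derivative -/
noncomputable def N (t x : ℝ) : ℝ :=
  e2 1 t * ((t + x) * (1 + t * x)) - log 2 * (t * (1 + t) * (1 + x) ^ 2)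

theorem nml_deriv {x : ℝ} (hx : 0 < x) : HasDerivAt negMulLog (-log x - 1) x :=
  Real.hasDerivAt_negMulLog hx.ne'

theorem e2_deriv {t x : ℝ} (ht : 0 ≤ t) (hx : 0 < x) :
    HasDerivAt (fun y => e2 t y) (log (t + x) - log x) x := by
  have h1 := nml_deriv hx
  have h2 : HasDerivAt (fun y : ℝ => t + y) 1 x := by simpa using (hasDerivAt_id x).const_add t
  have h3 := (nml_deriv (x := t + x) (by linarith)).comp x h2
  have h4 := (h1.const_add (negMulLog t)).sub h3
  refine (h4.congr_deriv ?_).congr_of_eventuallyEq ?_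
  · ring
  · exact Filter.Eventually.of_forall fun y => by simp [e2]

theorem D_deriv {t x : ℝ} (ht : 0 < t) (hx : 0 < x) : HasDerivAt (D t) (D1 t x) x := by
  have h1 := e2_deriv ht.le hx
  have h2 : HasDerivAt (fun y : ℝ => t * y) t x := by
    simpa using (hasDerivAt_id x).const_mul t
  have h3 := (e2_deriv (t := 1) (x := t * x) zero_le_one (by positivity)).comp x h2
  have h4 := e2_deriv (t := 1) zero_le_one hx
  have h5 := ((h1.add h3).const_mul (log 2)).sub (h4.const_mul (e2 1 t))
  refine (h5.congr_deriv ?_).congr_of_eventuallyEq ?_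
  · unfold D1; ring
  · exact Filter.Eventually.of_forall fun y => by
      simp only [D, Pi.add_apply, Pi.sub_apply, Function.comp]
      rw [e2_comm (t * y) 1]

theorem D1_deriv {t x : ℝ} (ht : 0 < t) (hx : 0 < x) :
    HasDerivAt (D1 t) (N t x / (x * (1 + x) * ((t + x) * (1 + t * x)))) x := by
  have hlx : HasDerivAt (fun y : ℝ => log y) x⁻¹ x := Real.hasDerivAt_log hx.ne'
  have h2 : HasDerivAt (fun y : ℝ => t * y) t x := by
    simpa using (hasDerivAt_id x).const_mul t
  have ha : HasDerivAt (fun y : ℝ => log (t + y)) (1 / (t + x)) x := by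
    have : HasDerivAt (fun y : ℝ => t + y) 1 x := by simpa using (hasDerivAt_id x).const_add t
    exact this.log (by positivity)
  have hb : HasDerivAt (fun y : ℝ => log (1 + t * y)) (t / (1 + t * x)) x := by
    have : HasDerivAt (fun y : ℝ => 1 + t * y) t x := h2.const_add 1
    exact this.log (by positivity)
  have hc : HasDerivAt (fun y : ℝ => log (t * y)) (t / (t * x)) x := h2.log (by positivity)
  have hd : HasDerivAt (fun y : ℝ => log (1 + y)) (1 / (1 + x)) x := by
    have : HasDerivAt (fun y : ℝ => 1 + y) 1 x := by simpa using (hasDerivAt_id x).const_add 1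
    exact this.log (by positivity)
  have h5 := (((ha.sub hlx).add ((hb.sub hc).const_mul t)).const_mul (log 2)).sub
    ((hd.sub hlx).const_mul (e2 1 t))
  refine (h5.congr_deriv ?_).congr_of_eventuallyEq ?_
  · unfold N
    field_simp
    ring
  · exact Filter.Eventually.of_forall fun y => by simp [D1]

theorem D1_one (t : ℝ) : D1 t 1 = 0 := by
  unfold D1
  have h1 : e2 1 t = (1 + t) * log (1 + t) - t * log t := e2_one
  rw [h1, mul_one, Real.log_one, add_comm t 1]
  norm_num
  ring

theorem D_one (t : ℝ) : D t 1 = 0 := by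
  unfold D
  have h1 : e2 1 (1 : ℝ) = 2 * log 2 := by rw [e2_one]; norm_num
  rw [h1, mul_one, e2_comm t 1]
  ring

theorem N_mono {t x y : ℝ} (ht : 0 < t) (ht1 : t ≤ 1) (hx : 0 < x) (hxy : x ≤ y) (hy : y ≤ 1)
    (h : 0 ≤ N t x) : 0 ≤ N t y := by
  have h1 := e2_low ht ht1
  have hN1 : 0 ≤ N t 1 := by
    unfold N
    have : e2 1 t * ((t + 1) * (1 + t * 1)) - log 2 * (t * (1 + t) * (1 + 1) ^ 2) =
        (1 + t) * (e2 1 t * (1 + t) - 4 * t * log 2) := by ring
    rw [this]
    apply mul_nonneg (by linarith)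
    linarith
  have hy0 : 0 < y := lt_of_lt_of_le hx hxy
  set α := t * (log 2 * (1 + t) - e2 1 t) with hα
  set β := e2 1 t * (1 + t ^ 2) - 2 * log 2 * t * (1 + t) with hβ
  have hN : ∀ z, N t z = β * z - α * (z ^ 2 + 1) := by
    intro z; unfold N; rw [hα, hβ]; ring
  rw [hN] at h hN1 ⊢
  rcases le_total 0 α with ha | ha
  · -- `N z / z` is increasing
    have h2 : 0 ≤ y * (β * x - α * (x ^ 2 + 1)) := mul_nonneg hy0.le h
    have h3 : x * (β * y - α * (y ^ 2 + 1)) - y * (β * x - α * (x ^ 2 + 1)) =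
        α * ((y - x) * (1 - x * y)) := by ring
    have h4 : 0 ≤ α * ((y - x) * (1 - x * y)) := by
      apply mul_nonneg ha
      apply mul_nonneg (by linarith)
      nlinarith
    have h5 : 0 ≤ x * (β * y - α * (y ^ 2 + 1)) := by linarith
    exact nonneg_of_mul_nonneg_right h5 hx
  · nlinarith [sq_nonneg (y - 1), mul_nonneg hy0.le hN1]

theorem D_nonneg {t x : ℝ} (ht : 0 < t) (ht1 : t ≤ 1) (hx : 0 < x) (hx1 : x ≤ 1) : 0 ≤ D t x := by
  have hden : ∀ z, 0 < z → 0 < z * (1 + z) * ((t + z) * (1 + t * z)) := by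
    intro z hz; positivity
  -- if `N t y ≥ 0` then `D1 ≤ 0` at `y`
  have hA : ∀ y, 0 < y → y ≤ 1 → 0 ≤ N t y → D1 t y ≤ 0 := by
    intro y hy hy1 hN
    have hm : MonotoneOn (D1 t) (Set.Icc y 1) := by
      apply monotoneOn_of_deriv_nonneg (convex_Icc y 1)
      · intro z hz
        exact (D1_deriv ht (lt_of_lt_of_le hy hz.1)).continuousAt.continuousWithinAt
      · intro z hz
        rw [interior_Icc] at hz
        exact (D1_deriv ht (hy.trans hz.1)).differentiableAt.differentiableWithinAt
      · intro z hz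
        rw [interior_Icc] at hz
        rw [(D1_deriv ht (hy.trans hz.1)).deriv]
        exact div_nonneg (N_mono ht ht1 hy hz.1.le hz.2.le hN) (hden z (hy.trans hz.1)).le
    have := hm (Set.mem_Icc.2 ⟨le_rfl, hy1⟩) (Set.mem_Icc.2 ⟨hy1, le_rfl⟩) hy1
    rwa [D1_one t] at this
  -- if `D1 ≤ 0` on `[x, 1]` then `D t x ≥ 0`
  have hB : (∀ y, x ≤ y → y ≤ 1 → D1 t y ≤ 0) → 0 ≤ D t x := by
    intro h
    have hm : AntitoneOn (D t) (Set.Icc x 1) := by
      apply antitoneOn_of_deriv_nonpos (convex_Icc x 1)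
      · intro z hz
        exact (D_deriv ht (lt_of_lt_of_le hx hz.1)).continuousAt.continuousWithinAt
      · intro z hz
        rw [interior_Icc] at hz
        exact (D_deriv ht (hx.trans hz.1)).differentiableAt.differentiableWithinAt
      · intro z hz
        rw [interior_Icc] at hz
        rw [(D_deriv ht (hx.trans hz.1)).deriv]
        exact h z hz.1.le hz.2.le
    have := hm (Set.mem_Icc.2 ⟨le_rfl, hx1⟩) (Set.mem_Icc.2 ⟨hx1, le_rfl⟩) hx1
    rwa [D_one] at this
  -- if `N t y < 0` then `D1` is antitone on `(0, y]`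
  have hC : ∀ y, 0 < y → y ≤ 1 → N t y < 0 → ∀ z, 0 < z → z ≤ y → D1 t y ≤ D1 t z := by
    intro y hy hy1 hN z hz hzy
    have hm : AntitoneOn (D1 t) (Set.Icc z y) := by
      apply antitoneOn_of_deriv_nonpos (convex_Icc z y)
      · intro w hw
        exact (D1_deriv ht (lt_of_lt_of_le hz hw.1)).continuousAt.continuousWithinAt
      · intro w hw
        rw [interior_Icc] at hw
        exact (D1_deriv ht (hz.trans hw.1)).differentiableAt.differentiableWithinAt
      · intro w hw
        rw [interior_Icc] at hw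
        rw [(D1_deriv ht (hz.trans hw.1)).deriv]
        apply div_nonpos_of_nonpos_of_nonneg _ (hden w (hz.trans hw.1)).le
        by_contra hc
        have := N_mono ht ht1 (hz.trans hw.1) hw.2.le hy1 (not_le.1 hc).le
        linarith
    exact hm (Set.mem_Icc.2 ⟨le_rfl, hzy⟩) (Set.mem_Icc.2 ⟨hzy, le_rfl⟩) hzy
  rcases le_or_gt 0 (N t x) with h | h
  · exact hB fun y hxy hy => hA y (lt_of_lt_of_le hx hxy) hy (N_mono ht ht1 hx hxy hy h)
  · rcases le_or_gt 0 (D1 t x) with h' | h'
    · have hm : MonotoneOn (D t) (Set.Icc 0 x) := by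
        apply monotoneOn_of_deriv_nonneg (convex_Icc 0 x)
        · apply Continuous.continuousOn
          unfold D e2
          have := Real.continuous_negMulLog
          fun_prop
        · intro z hz
          rw [interior_Icc] at hz
          exact (D_deriv ht hz.1).differentiableAt.differentiableWithinAt
        · intro z hz
          rw [interior_Icc] at hz
          rw [(D_deriv ht hz.1).deriv]
          exact h'.trans (hC x hx hx1 h z hz.1 hz.2.le)
      have h0 : D t 0 = 0 := by
        unfold D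
        rw [mul_zero, e2_zero_right, e2_zero_right, e2_zero_left]; simp
      have := hm (Set.mem_Icc.2 ⟨le_rfl, hx.le⟩) (Set.mem_Icc.2 ⟨hx.le, le_rfl⟩) hx.le
      rwa [h0] at this
    · apply hB
      intro y hxy hy
      have hy0 : 0 < y := lt_of_lt_of_le hx hxy
      rcases le_or_gt 0 (N t y) with h2 | h2
      · exact hA y hy0 hy h2
      · exact (hC y hy0 hy h2 x hx hxy).trans h'.le

/-- **The two-point inequality.** -/
theorem two_point {t a b : ℝ} (ht : 0 < t) (ht1 : t ≤ 1) (ha : 0 ≤ a) (hb : 0 ≤ b) :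
    e2 1 t * e2 a b ≤ log 2 * (e2 (t * a) b + e2 (t * b) a) := by
  wlog h : b ≤ a with H
  · have := H ht ht1 hb ha (le_of_not_ge h)
    rw [e2_comm a b]
    linarith
  rcases hb.eq_or_lt with h0 | h0
  · rw [← h0, mul_zero, e2_zero_right, e2_zero_right, e2_zero_left]; simp
  · have ha0 : 0 < a := lt_of_lt_of_le h0 h
    have h1 := D_nonneg ht ht1 (x := b / a) (by positivity) (by rw [div_le_one ha0]; exact h)
    unfold D at h1
    have e1 : e2 a b = a * e2 1 (b / a) := by
      rw [← e2_smul, mul_one]; congr 1; field_simp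
    have e3 : e2 (t * a) b = a * e2 t (b / a) := by
      rw [← e2_smul]; congr 1
      · ring
      · field_simp
    have e4 : e2 (t * b) a = a * e2 (t * (b / a)) 1 := by
      rw [← e2_smul, mul_one]; congr 1; field_simp
    rw [e1, e3, e4]
    have := mul_nonneg ha0.le h1
    linarith

end Pool.Agent.H80.GR
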